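import Mathlib.Combinatorics.SimpleGraph.Paths
import Mathlib.Combinatorics.SimpleGraph.DeleteEdges
import Pool.Agent.TH505.SC.Assemble

/-!
Basic lemmas on the multigraph of a simple graph, taken from `Pool/Agent/TH505/OW` (helper505).
-/

set_option autoImplicit false

open Finset

namespace Pool.Agent.TH362.FO.WB

open Classical in
/-- The edges between `Z` and the rest. -/
noncomputable def cut {V E : Type} [Fintype E] (s t : E → V) (Z : Set V) : Finset E :=
  univ.filter (fun e => ¬ (s e ∈ Z ↔ t e ∈ Z))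

theorem mem_cut {V E : Type} [Fintype E] (s t : E → V) (Z : Set V) (e : E) :
    e ∈ cut s t Z ↔ ¬ (s e ∈ Z ↔ t e ∈ Z) := by
  classical
  unfold cut
  simp only [mem_filter, mem_univ, true_and]

variable {V : Type}

/-- The edges of `G` between `Z` and the rest. -/
def bdry (G : SimpleGraph V) (Z : Set V) : Set (Sym2 V) :=
  {e | ∃ u v, G.Adj u v ∧ u ∈ Z ∧ v ∉ Z ∧ e = s(u, v)}

/-- First end. -/
noncomputable def sE (G : SimpleGraph V) (e : G.edgeSet) : V := (Quot.out e.1).1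
/-- Second end. -/
noncomputable def tE (G : SimpleGraph V) (e : G.edgeSet) : V := (Quot.out e.1).2

lemma st_mk (G : SimpleGraph V) (e : G.edgeSet) : s(sE G e, tE G e) = e.1 := by
  unfold sE tE
  exact Quot.out_eq e.1

lemma st_adj (G : SimpleGraph V) (e : G.edgeSet) : G.Adj (sE G e) (tE G e) := by
  have h := e.2
  rw [← st_mk G e, SimpleGraph.mem_edgeSet] at h
  exact h

lemma st_eq (G : SimpleGraph V) {u v : V} (h : G.Adj u v) (e : G.edgeSet) :
    e = ⟨s(u, v), h⟩ ↔ (sE G e = u ∧ tE G e = v) ∨ (tE G e = u ∧ sE G e = v) := by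
  rw [Subtype.ext_iff, ← st_mk G e, Sym2.eq_iff]
  constructor
  · rintro (h | ⟨h1, h2⟩)
    · exact Or.inl h
    · exact Or.inr ⟨h2, h1⟩
  · rintro (h | ⟨h1, h2⟩)
    · exact Or.inl h
    · exact Or.inr ⟨h2, h1⟩

lemma cut_card [Finite V] (G : SimpleGraph V) [Fintype G.edgeSet] (Z : Set V) :
    (cut (sE G) (tE G) Z).card = (bdry G Z).ncard := by
  classical
  have h1 : bdry G Z = ((cut (sE G) (tE G) Z).map ⟨Subtype.val, Subtype.val_injective⟩ :
      Finset (Sym2 V)) := by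
    ext e
    simp only [bdry, Set.mem_ofPred_eq, coe_map, Function.Embedding.coeFn_mk, Set.mem_image,
      mem_coe, cut, mem_filter, mem_univ, true_and]
    constructor
    · rintro ⟨u, v, huv, hu, hv, rfl⟩
      refine ⟨⟨s(u, v), huv⟩, ?_, rfl⟩
      rcases (st_eq G huv ⟨s(u, v), huv⟩).1 rfl with ⟨h1, h2⟩ | ⟨h1, h2⟩
      · rw [h1, h2]; tauto
      · rw [h1, h2]; tauto
    · rintro ⟨e, he, rfl⟩
      by_cases hs : sE G e ∈ Z
      · exact ⟨_, _, st_adj G e, hs, fun h => he ⟨fun _ => h, fun _ => hs⟩, (st_mk G e).symm⟩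
      · have ht : tE G e ∈ Z := by
          by_contra h
          exact he ⟨fun h' => absurd h' hs, fun h' => absurd h' h⟩
        exact ⟨_, _, (st_adj G e).symm, ht, hs, by rw [← st_mk G e, Sym2.eq_swap]⟩
  rw [h1, Set.ncard_coe_finset, card_map]

lemma cross {G : SimpleGraph V} (Z : Set V) : ∀ {a b : V} (_ : G.Walk a b), a ∈ Z → b ∉ Z →
    ∃ x y, G.Adj x y ∧ x ∈ Z ∧ y ∉ Z := by
  intro a b p
  induction p with
  | nil => intro h1 h2; exact absurd h1 h2
  | @cons a c b h p ih =>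
    intro h1 h2
    by_cases hc : c ∈ Z
    · exact ih hc h2
    · exact ⟨a, c, h, h1, hc⟩

lemma bridge_conv (G : SimpleGraph V) [Fintype G.edgeSet]
    (h : ∀ u v : V, G.Adj u v → (G.deleteEdges {s(u, v)}).Reachable u v) (Z : Set V) :
    (cut (sE G) (tE G) Z).card ≠ 1 := by
  classical
  intro h1
  obtain ⟨e, he⟩ := Finset.card_eq_one.1 h1
  have hmem : ∀ e', e' ∈ cut (sE G) (tE G) Z ↔ e' = e := fun e' => by rw [he, mem_singleton]
  have h2 : ¬ (sE G e ∈ Z ↔ tE G e ∈ Z) := (mem_cut _ _ Z e).1 ((hmem e).2 rfl)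
  have key : ∀ u v, G.Adj u v → u ∈ Z → v ∉ Z → e.1 = s(u, v) := by
    intro u v huv hu hv
    have h3 : (⟨s(u, v), huv⟩ : G.edgeSet) ∈ cut (sE G) (tE G) Z := by
      rw [mem_cut]
      rcases (st_eq G huv ⟨s(u, v), huv⟩).1 rfl with ⟨h1, h2⟩ | ⟨h1, h2⟩
      · rw [h1, h2]; tauto
      · rw [h1, h2]; tauto
    rw [hmem] at h3
    rw [← h3]
  obtain ⟨u, v, huv, hu, hv⟩ : ∃ u v, G.Adj u v ∧ u ∈ Z ∧ v ∉ Z := by
    by_cases hs : sE G e ∈ Z
    · exact ⟨_, _, st_adj G e, hs, fun h => h2 ⟨fun _ => h, fun _ => hs⟩⟩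
    · have ht : tE G e ∈ Z := by
        by_contra h
        exact h2 ⟨fun h' => absurd h' hs, fun h' => absurd h' h⟩
      exact ⟨_, _, (st_adj G e).symm, ht, hs⟩
  obtain ⟨p⟩ := h u v huv
  obtain ⟨x, y, hxy, hx, hy⟩ := cross Z p hu hv
  rw [SimpleGraph.deleteEdges_adj] at hxy
  have h4 := key u v huv hu hv
  have h5 := key x y hxy.1 hx hy
  exact hxy.2 (by rw [Set.mem_singleton_iff, ← h4, ← h5])

end Pool.Agent.TH362.FO.WB
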