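import Pool.Agent.TH362.FO.Defs
import Pool.Agent.TH362.FO.WalkBase

/-!
From orientable five cycle double covers of the multigraph to lists of directed cycles.
-/

set_option autoImplicit false

namespace Pool.Agent.TH362.FO

open Finset Pool.Agent.TH362.TF

namespace Walk2

open Pool.Agent.TH362.FO.WB (sE tE st_mk st_adj st_eq bdry cut_card bridge_conv)
open Pool.Agent.TH505.OCDC Pool.Agent.TH505.SC

variable {V : Type}

lemma cut_eq [Fintype V] (G : SimpleGraph V) [Fintype G.edgeSet] (x : V → Bool) :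
    cut (sE G) (tE G) univ x = Pool.Agent.TH362.FO.WB.cut (sE G) (tE G) {v | x v = true} := by
  classical
  ext e
  rw [Pool.Agent.TH362.FO.WB.mem_cut, cut, mem_filter]
  simp only [mem_univ, true_and, Set.mem_ofPred_eq]
  cases x (sE G e) <;> cases x (tE G e) <;> simp

lemma bdry_eq [Fintype V] (G : SimpleGraph V) [Fintype G.edgeSet] (Z : Set V) :
    bdry G Z = ((Pool.Agent.TH362.FO.WB.cut (sE G) (tE G) Z).map
      ⟨Subtype.val, Subtype.val_injective⟩ : Finset (Sym2 V)) := by
  classical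
  ext e
  simp only [bdry, Set.mem_ofPred_eq, coe_map, Function.Embedding.coeFn_mk, Set.mem_image,
    mem_coe, Pool.Agent.TH362.FO.WB.cut, mem_filter, mem_univ, true_and]
  constructor
  · rintro ⟨u, v, huv, hu, hv, rfl⟩
    refine ⟨⟨s(u, v), huv⟩, ?_, rfl⟩
    rcases (st_eq G huv ⟨s(u, v), huv⟩).1 rfl with ⟨h1, h2⟩ | ⟨h1, h2⟩
    · rw [h1, h2]; tauto
    · rw [h1, h2]; tauto
  · rintro ⟨e, he, rfl⟩
    by_cases hs : sE G e ∈ Z
    · exact ⟨_, _, st_adj G e, hs, fun h => he ⟨fun _ => h, fun _ => hs⟩, (st_mk G e).symm⟩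
    · have ht : tE G e ∈ Z := by
        by_contra h
        exact he ⟨fun h' => absurd h' hs, fun h' => absurd h' h⟩
      exact ⟨_, _, (st_adj G e).symm, ht, hs, by rw [← st_mk G e, Sym2.eq_swap]⟩

lemma deg_eq [Fintype V] [DecidableEq V] (G : SimpleGraph V) [Fintype G.edgeSet] (v : V) :
    deg (sE G) (tE G) univ v = (G.neighborSet v).ncard := by
  classical
  have h1 : deg (sE G) (tE G) univ v = (Pool.Agent.TH362.FO.WB.cut (sE G) (tE G) {v}).card := by
    unfold deg Pool.Agent.TH362.FO.WB.cut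
    rw [card_filter]
    refine Finset.sum_congr rfl fun e _ => ?_
    have hne := (st_adj G e).ne
    by_cases h1 : sE G e = v
    · have h2 : tE G e ≠ v := fun h => hne (h1.trans h.symm)
      simp [h1, h2]
    · by_cases h2 : tE G e = v
      · simp [h1, h2]
      · simp [h1, h2]
  rw [h1, cut_card]
  have h2 : bdry G {v} = (fun w => s(v, w)) '' G.neighborSet v := by
    ext e
    simp only [bdry, Set.mem_ofPred_eq, Set.mem_image, SimpleGraph.mem_neighborSet,
      Set.mem_singleton_iff]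
    constructor
    · rintro ⟨u, w, huw, rfl, -, rfl⟩
      exact ⟨w, huw, rfl⟩
    · rintro ⟨w, hw, rfl⟩
      exact ⟨v, w, hw, rfl, hw.ne', rfl⟩
  rw [h2, Set.ncard_image_of_injective]
  intro a b hab
  exact Sym2.congr_right.1 hab

open Classical in
/-- The flow `i` on the pairs of vertices. -/
noncomputable def gfl (G : SimpleGraph V) [Fintype G.edgeSet] (F : Fin 5 → G.edgeSet → ℤ)
    (i : Fin 5) (u v : V) : ℤ :=
  ∑ e, F i e * ((if sE G e = u ∧ tE G e = v then 1 else 0) -
    (if tE G e = u ∧ sE G e = v then 1 else 0))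

open scoped Classical in
theorem five_of_od [Fintype V] (G : SimpleGraph V) [Fintype G.edgeSet]
    (F : Fin 5 → G.edgeSet → ℤ) (hF1 : ∀ i v, dv (sE G) (tE G) univ (F i) v = 0)
    (hF2 : ∀ e : G.edgeSet, ∃ i j, i ≠ j ∧ F i e = 1 ∧ F j e = -1 ∧
      ∀ k, k ≠ i → k ≠ j → F k e = 0) : Five G (gfl G F) := by
  classical
  have hanti : ∀ i u v, gfl G F i v u = - gfl G F i u v := by
    intro i u v
    unfold gfl
    rw [← Finset.sum_neg_distrib]
    refine Finset.sum_congr rfl fun e _ => ?_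
    simp only [and_comm]
    ring
  have hz : ∀ i u v, ¬ G.Adj u v → gfl G F i u v = 0 := by
    intro i u v h
    unfold gfl
    refine Finset.sum_eq_zero fun e _ => ?_
    rw [if_neg, if_neg]
    · ring
    · rintro ⟨h1, h2⟩
      exact h (h1 ▸ h2 ▸ (st_adj G e).symm)
    · rintro ⟨h1, h2⟩
      exact h (h1 ▸ h2 ▸ (st_adj G e))
  have hval : ∀ u v (h : G.Adj u v), (∀ i, gfl G F i u v = F i ⟨s(u, v), h⟩) ∨
      ∀ i, gfl G F i u v = - F i ⟨s(u, v), h⟩ := by
    intro u v h
    have hne := h.ne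
    have h0 : ∀ i, gfl G F i u v = F i ⟨s(u, v), h⟩ *
        ((if sE G ⟨s(u, v), h⟩ = u ∧ tE G ⟨s(u, v), h⟩ = v then 1 else 0) -
          (if tE G ⟨s(u, v), h⟩ = u ∧ sE G ⟨s(u, v), h⟩ = v then 1 else 0)) := by
      intro i
      unfold gfl
      refine Finset.sum_eq_single_of_mem (⟨s(u, v), h⟩ : G.edgeSet) (mem_univ _) ?_
      intro e _ hne'
      have h1 := (st_eq G h e).not.1 hne'
      push Not at h1
      rw [if_neg (fun h2 => h1.1 h2.1 h2.2), if_neg (fun h2 => h1.2 h2.1 h2.2)]
      ring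
    rcases (st_eq G h ⟨s(u, v), h⟩).1 rfl with ⟨h1, h2⟩ | ⟨h1, h2⟩
    · left
      intro i
      rw [h0 i, if_pos (And.intro h1 h2), if_neg (fun h3 => hne (h1.symm.trans h3.2))]
      ring
    · right
      intro i
      rw [h0 i, if_neg (fun h3 => hne (h3.1.symm.trans h2)), if_pos (And.intro h1 h2)]
      ring
  have hthree : ∀ i (e : G.edgeSet), F i e = 0 ∨ F i e = 1 ∨ F i e = -1 := by
    intro i e
    obtain ⟨a, b, -, ha, hb, hc⟩ := hF2 e
    by_cases h1 : i = a
    · rw [h1]; exact Or.inr (Or.inl ha)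
    · by_cases h2 : i = b
      · rw [h2]; exact Or.inr (Or.inr hb)
      · exact Or.inl (hc i h1 h2)
  refine ⟨hanti, ?_, ?_, hz, ?_⟩
  · intro i u
    rw [← hF1 i u]
    unfold gfl dv
    rw [Finset.sum_comm]
    refine Finset.sum_congr rfl fun e _ => ?_
    rw [← Finset.mul_sum, Finset.sum_sub_distrib, mul_sub]
    congr 1
    · by_cases h : sE G e = u <;> simp [h]
    · by_cases h : tE G e = u <;> simp [h]
  · intro i u v
    by_cases h : G.Adj u v
    · have h1 := hthree i ⟨s(u, v), h⟩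
      rcases hval u v h with h2 | h2
      · rw [h2 i]; exact h1
      · rw [h2 i]
        rcases h1 with h1 | h1 | h1 <;> rw [h1] <;> simp
    · exact Or.inl (hz i u v h)
  · intro u v h
    obtain ⟨a, b, hab, ha, hb, hc⟩ := hF2 ⟨s(u, v), h⟩
    rcases hval u v h with h2 | h2
    · refine ⟨a, ?_, ?_⟩
      · show gfl G F a u v = 1
        rw [h2, ha]
      · intro j hj
        have hj' : gfl G F j u v = 1 := hj
        rw [h2] at hj'
        by_contra h3
        by_cases h4 : j = b
        · rw [h4, hb] at hj'; norm_num at hj'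
        · rw [hc j h3 h4] at hj'; norm_num at hj'
    · refine ⟨b, ?_, ?_⟩
      · show gfl G F b u v = 1
        rw [h2, hb]; norm_num
      · intro j hj
        have hj' : gfl G F j u v = 1 := hj
        rw [h2] at hj'
        by_contra h3
        by_cases h4 : j = a
        · rw [h4, ha] at hj'; norm_num at hj'
        · rw [hc j h4 h3] at hj'; norm_num at hj'

open scoped Classical in
theorem fin5 [Fintype V] (G : SimpleGraph V) (g : Fin 5 → V → V → ℤ) (hg : Five G g) :
    ∃ C : Fin 5 → List (Σ v : V, G.Walk v v), (∀ i, ∀ c ∈ C i, c.2.IsCycle) ∧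
      (∀ i u v, tot (C i) u v + tot (C i) v u ≤ 1) ∧
      ∀ u v, G.Adj u v → ∑ i, tot (C i) u v = 1 := by
  obtain ⟨h1, h2, h4, h5, h6⟩ := hg
  have key : ∀ i, ∃ C : List (Σ v : V, G.Walk v v), (∀ c ∈ C, c.2.IsCycle) ∧
      ∀ u v, tot C u v = ind (g i u v = 1) := fun i =>
    flow_decomp (g i) (h1 i) (h4 i) (fun u v hne => by
      by_contra h'
      exact hne (h5 i u v h')) (h2 i)
  choose C hC1 hC2 using key
  refine ⟨C, hC1, ?_, ?_⟩
  · intro i u v
    rw [hC2, hC2, h1 i u v]
    rcases h4 i u v with h7 | h7 | h7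
    · rw [h7, ind_neg (by norm_num), ind_neg (by norm_num)]; norm_num
    · rw [h7, ind_pos rfl, ind_neg (by norm_num)]
    · rw [h7, ind_neg (by norm_num), ind_pos (by norm_num)]
  · intro u v huv
    rw [Finset.sum_congr rfl (fun i _ => hC2 i u v)]
    obtain ⟨i, hi1, hi2⟩ := h6 u v huv
    rw [Finset.sum_eq_single i]
    · exact ind_pos hi1
    · intro k _ hk
      exact ind_neg (fun h' => hk (hi2 k h'))
    · intro h'; exact absurd (mem_univ _) h'

end Walk2

open Pool.Agent.TH362.FO.WB (sE tE) in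
open scoped Classical in
theorem od_walk2 (V : Type) [Fintype V] (G : SimpleGraph V)
    (hb : ∀ u v : V, G.Adj u v → (G.deleteEdges {s(u, v)}).Reachable u v)
    (hfew : {v | Odd (G.neighborSet v).ncard}.ncard ≤ 16 ∨
      ∀ X : Fin 13 → Set V, (∀ i j, i ≠ j → Disjoint (X i) (X j)) →
        (∀ i j, i ≠ j → {e | ∃ u v, G.Adj u v ∧ u ∈ X i ∧ v ∉ X i ∧ e = s(u, v)} ≠
          {e | ∃ u v, G.Adj u v ∧ u ∈ X j ∧ v ∉ X j ∧ e = s(u, v)}) →
        ∃ i, {e | ∃ u v, G.Adj u v ∧ u ∈ X i ∧ v ∉ X i ∧ e = s(u, v)}.ncard ≠ 3)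
    (main : ∀ (s t : G.edgeSet → V), N1 s t univ → Few s t univ → OD s t univ) :
    ∃ C : Fin 5 → List (Σ v : V, G.Walk v v), (∀ i, ∀ c ∈ C i, c.2.IsCycle) ∧
      (∀ i u v, ((C i).map (fun c =>
          (c.2.darts.filter (fun d => decide (d.toProd = (u, v)))).length)).sum +
        ((C i).map (fun c =>
          (c.2.darts.filter (fun d => decide (d.toProd = (v, u)))).length)).sum ≤ 1) ∧
      ∀ u v, G.Adj u v → ∑ i, ((C i).map (fun c =>
        (c.2.darts.filter (fun d => decide (d.toProd = (u, v)))).length)).sum = 1 := by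
  have hN1 : N1 (sE G) (tE G) univ := by
    intro x
    rw [Walk2.cut_eq]
    exact Pool.Agent.TH362.FO.WB.bridge_conv G hb _
  have hFew : Few (sE G) (tE G) univ := by
    rcases hfew with h | h
    · left
      have h1 : {v | Odd (G.neighborSet v).ncard} = ((odd (sE G) (tE G) univ : Finset V) : Set V) := by
        ext v
        simp only [Set.mem_ofPred_eq, odd, coe_filter, mem_univ, true_and]
        rw [Walk2.deg_eq]
      rw [h1, Set.ncard_coe_finset] at h
      exact h
    · right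
      rintro ⟨X, hX1, hX2, hX3⟩
      obtain ⟨i, hi⟩ := h (fun i => {v | X i v = true})
        (fun i j hij => by
          rw [Set.disjoint_left]
          intro v hv1 hv2
          exact hX1 i j hij v ⟨hv1, hv2⟩)
        (fun i j hij heq => by
          apply hX2 i j hij
          rw [Walk2.cut_eq, Walk2.cut_eq]
          have h1 := Walk2.bdry_eq G {v | X i v = true}
          have h2 := Walk2.bdry_eq G {v | X j v = true}
          have h3 : Pool.Agent.TH362.FO.WB.bdry G {v | X i v = true} =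
            Pool.Agent.TH362.FO.WB.bdry G {v | X j v = true} := heq
          rw [h1, h2] at h3
          exact Finset.map_injective _ (Finset.coe_injective h3))
      apply hi
      have h1 := hX3 i
      rw [Walk2.cut_eq, Pool.Agent.TH362.FO.WB.cut_card] at h1
      exact h1
  obtain ⟨F, hF1, hF2⟩ := main (sE G) (tE G) hN1 hFew
  exact Walk2.fin5 G (Walk2.gfl G F)
    (Walk2.five_of_od G F hF1 (fun e => hF2 e (mem_univ e)))

end Pool.Agent.TH362.FO
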