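import Pool.Agent.TH362.FO.Defs
import Pool.Agent.TH362.TP.Fin12
import Pool.Agent.TH362.TF.Main

/-!
The alternative (nowhere-zero flow or Petersen quotient) for graphs with at most sixteen vertices
of odd degree, or without thirteen disjoint vertex sets with different boundaries of size three.
-/

set_option autoImplicit false

namespace Pool.Agent.TH362.FO

open Finset Pool.Agent.TH362.TF

set_option linter.unusedSectionVars false

variable {V E : Type} [Fintype V] [DecidableEq V] [Fintype E] [DecidableEq E]

namespace Alt

theorem fam_quot {s t : E → V} {S S' : Finset E} {f : V → V} (hS : S' ⊆ S)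
    (hf : ∀ e ∈ S, e ∉ S' → f (s e) = f (t e)) {k : ℕ}
    (h : Fam (fun e => f (s e)) (fun e => f (t e)) S' k) : Fam s t S k := by
  obtain ⟨X, h1, h2, h3⟩ := h
  refine ⟨fun i v => X i (f v), fun i j hij v => h1 i j hij (f v), fun i j hij => ?_, fun i => ?_⟩
  · have := h2 i j hij
    rw [quot_cut hS hf, quot_cut hS hf] at this
    exact this
  · have := h3 i
    rw [quot_cut hS hf] at this
    exact this

theorem fam_deg {s t : E → V} {S : Finset E} (h : TP.MinQ s t S) {k : ℕ}
    (hk : k ≤ (univ.filter (fun v => deg s t S v = 3)).card) : Fam s t S k := by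
  obtain ⟨T, hT, hTk⟩ := Finset.exists_subset_card_eq hk
  let em := T.equivFinOfCardEq hTk
  have hd : ∀ i, deg s t S (em.symm i).1 = 3 := fun i =>
    (Finset.mem_filter.1 (hT (em.symm i).2)).2
  have hinj : ∀ i j, i ≠ j → (em.symm i).1 ≠ (em.symm j).1 := fun i j hij heq =>
    hij (em.symm.injective (Subtype.ext heq))
  refine ⟨fun i v => decide (v = (em.symm i).1), ?_, ?_, ?_⟩
  · intro i j hij v hv
    have h1 := of_decide_eq_true hv.1
    have h2 := of_decide_eq_true hv.2
    exact hinj i j hij (h1.symm.trans h2)
  · intro i j hij heq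
    have hne := hinj i j hij
    have hc : (cut s t S (fun w => decide (w = (em.symm i).1))).card = 3 := by
      rw [TP.Fin12.cut_single h.noloop]; exact hd i
    obtain ⟨e, he, e', he', hee⟩ := Finset.one_lt_card.1
      (by omega : 1 < (cut s t S (fun w => decide (w = (em.symm i).1))).card)
    have k1 := TP.Fin12.ends_of hne he (heq ▸ he)
    have k2 := TP.Fin12.ends_of hne he' (heq ▸ he')
    have m1 : e ∈ S := (Finset.mem_filter.1 he).1
    have m2 : e' ∈ S := (Finset.mem_filter.1 he').1
    refine h.noDouble {(em.symm i).1, (em.symm j).1} (Finset.subset_univ _) ?_ {e} {e'} ?_ ?_ ?_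
      (TP.Fin12.cn_single hne k1) (TP.Fin12.cn_single hne k2)
    · rw [Finset.card_pair hne]
    · exact Finset.singleton_subset_iff.2 m1
    · exact Finset.singleton_subset_iff.2 m2
    · rw [Finset.disjoint_singleton]
      exact hee
  · intro i
    rw [TP.Fin12.cut_single h.noloop]
    exact hd i

end Alt

theorem few_quot {s t : E → V} {S S' : Finset E} {f : V → V} (hS : S' ⊆ S)
    (hf : ∀ e ∈ S, e ∉ S' → f (s e) = f (t e)) (h : Few s t S) :
    Few (fun e => f (s e)) (fun e => f (t e)) S' := by
  rcases h with h | h
  · exact Or.inl (((Finset.card_le_card (quot_odd hS hf)).trans Finset.card_image_le).trans h)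
  · exact Or.inr fun hfam => h (Alt.fam_quot hS hf hfam)

theorem alt (s t : E → V) (S : Finset E) (h1 : N1 s t S) (h : Few s t S) :
    NZ s t S ∨ PQ s t S := by
  obtain ⟨n, hn⟩ : ∃ n, S.card = n := ⟨_, rfl⟩
  induction n using Nat.strong_induction_on generalizing s t S with
  | _ n IH =>
    rcases h with h | h
    · exact main16 s t S h1 h
    · by_contra hcon
      rw [not_or] at hcon
      obtain ⟨hnz, hpq⟩ := hcon
      have hQ : TP.MinQ s t S := by
        refine ⟨h1, hnz, ?_⟩
        intro f S' hS hf hlt
        rcases IH S'.card (by omega) (fun e => f (s e)) (fun e => f (t e)) S'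
          (quot_n1 hS hf h1) (few_quot hS hf (Or.inr h)) rfl with h' | h'
        · exact h'
        · exact absurd (quot_pq hS hf h') hpq
      have k1 := TP.Fin12.odd_le hQ
      have k2 : (univ.filter (fun v => deg s t S v = 3)).card ≤ 12 := by
        by_contra hlt
        exact h (Alt.fam_deg hQ (by omega))
      rcases main16 s t S h1 (by omega) with h' | h'
      · exact hnz h'
      · exact hpq h'

end Pool.Agent.TH362.FO
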