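import Pool.Agent.TH362.TF.Defs

/-!
Definitions for covers by six even subgraphs and for orientable five cycle double covers.
-/

set_option autoImplicit false

namespace Pool.Agent.TH362.FO

open Finset Pool.Agent.TH362.TF

variable {V E : Type} [Fintype V] [DecidableEq V] [Fintype E] [DecidableEq E]

/-- Six even subgraphs such that every edge is in exactly four of them. -/
def Ful (s t : E → V) (S : Finset E) : Prop :=
  ∃ C : Fin 6 → Finset E, (∀ i, C i ⊆ S) ∧ (∀ i v, Even (deg s t (C i) v)) ∧
    ∀ e ∈ S, (univ.filter (fun i => e ∈ C i)).card = 4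

/-- The divergence of `φ` at the vertex `v`. -/
def dv (s t : E → V) (S : Finset E) (φ : E → ℤ) (v : V) : ℤ :=
  ∑ e ∈ S, ((if s e = v then φ e else 0) - (if t e = v then φ e else 0))

/-- Five flows such that on every edge one of them is `1`, one is `-1`, and the others vanish. -/
def OD (s t : E → V) (S : Finset E) : Prop :=
  ∃ F : Fin 5 → E → ℤ, (∀ i v, dv s t S (F i) v = 0) ∧
    ∀ e ∈ S, ∃ i j, i ≠ j ∧ F i e = 1 ∧ F j e = -1 ∧ ∀ k, k ≠ i → k ≠ j → F k e = 0

/-- There are `k` pairwise disjoint vertex sets with pairwise different boundaries of size three. -/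
def Fam (s t : E → V) (S : Finset E) (k : ℕ) : Prop :=
  ∃ X : Fin k → V → Bool, (∀ i j, i ≠ j → ∀ v, ¬ (X i v = true ∧ X j v = true)) ∧
    (∀ i j, i ≠ j → cut s t S (X i) ≠ cut s t S (X j)) ∧ ∀ i, (cut s t S (X i)).card = 3

/-- At most sixteen vertices of odd degree, or no thirteen sets as above. -/
def Few (s t : E → V) (S : Finset E) : Prop := (odd s t S).card ≤ 16 ∨ ¬ Fam s t S 13

end Pool.Agent.TH362.FO
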