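import Pool.Agent.TH362.FO.Defs
import Mathlib.Logic.Equiv.Basic
import Mathlib.Data.Fintype.Card
import Mathlib.Algebra.BigOperators.Ring.Finset
import Mathlib.Combinatorics.Enumerative.DoubleCounting

/-!
Gluing Fulkerson covers at 3-cuts.
-/

set_option autoImplicit false

namespace Pool.Agent.TH362.FO

open Finset Pool.Agent.TH362.TF

variable {V E : Type} [Fintype V] [DecidableEq V] [Fintype E] [DecidableEq E]

namespace FGlue

/-- the cover obtained from the contraction of the side `b` -/
theorem side (s t : E → V) (S : Finset E) (x : V → Bool) (b : Bool)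
    (hb : ∃ e ∈ S, x (s e) = b ∧ x (t e) = b)
    (ih : ∀ (S' : Finset E) (f : V → V), S' ⊆ S → (∀ e ∈ S, e ∉ S' → f (s e) = f (t e)) →
      S'.card < S.card → Ful (fun e => f (s e)) (fun e => f (t e)) S') :
    ∃ C : Fin 6 → Finset E, (∀ i, C i ⊆ S) ∧
      (∀ i, ∀ e ∈ C i, ¬ (x (s e) = b ∧ x (t e) = b)) ∧
      (∀ i, Even (cut s t (C i) x).card) ∧
      (∀ i v, x v ≠ b → Even (deg s t (C i) v)) ∧
      (∀ e ∈ S, ¬ (x (s e) = b ∧ x (t e) = b) → (univ.filter (fun i => e ∈ C i)).card = 4) := by
  obtain ⟨e0, he0, h1, h2⟩ := hb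
  set a := s e0 with ha
  set f : V → V := fun v => if x v = b then a else v with hf
  set S1 := S.filter (fun e => ¬ (x (s e) = b ∧ x (t e) = b)) with hS1
  have hfa : ∀ v, f v = a ↔ x v = b := by
    intro v
    constructor
    · intro h
      by_contra hv
      have : f v = v := by simp [hf, hv]
      rw [this] at h
      rw [h] at hv
      exact hv h1
    · intro h
      simp [hf, h]
  have hfv : ∀ v, x v ≠ b → ∀ w, (f w = v ↔ w = v) := by
    intro v hv w
    by_cases hw : x w = b
    · have h3 : f w = a := (hfa w).2 hw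
      rw [h3]
      constructor
      · intro h; rw [h] at h1; exact absurd h1 hv
      · intro h; rw [h] at hw; exact absurd hw hv
    · have : f w = w := by simp [hf, hw]
      rw [this]
  obtain ⟨C, hC1, hC2, hC3⟩ := ih S1 f (filter_subset _ _) (by
    intro e he hne
    have : x (s e) = b ∧ x (t e) = b := by
      by_contra h
      exact hne (mem_filter.2 ⟨he, h⟩)
    rw [(hfa _).2 this.1, (hfa _).2 this.2]) (by
    refine card_lt_card ?_
    refine (filter_ssubset).2 ⟨e0, he0, ?_⟩
    simp only [not_not]
    exact ⟨h1, h2⟩)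
  have hnb : ∀ i, ∀ e ∈ C i, ¬ (x (s e) = b ∧ x (t e) = b) := fun i e he =>
    (mem_filter.1 (hC1 i he)).2
  refine ⟨C, fun i => (hC1 i).trans (filter_subset _ _), hnb, ?_, ?_, ?_⟩
  · intro i
    have h3 := hC2 i a
    have h4 : deg (fun e => f (s e)) (fun e => f (t e)) (C i) a = (cut s t (C i) x).card := by
      unfold deg cut
      rw [card_filter]
      refine sum_congr rfl fun e he => ?_
      have h5 := hnb i e he
      simp only [hfa]
      generalize x (s e) = p at *
      generalize x (t e) = q at *
      revert h5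
      cases p <;> cases q <;> cases b <;> simp
    rw [← h4]
    exact h3
  · intro i v hv
    have h3 := hC2 i v
    have h4 : deg (fun e => f (s e)) (fun e => f (t e)) (C i) v = deg s t (C i) v := by
      unfold deg
      refine sum_congr rfl fun e _ => ?_
      simp only [hfv v hv]
    rw [← h4]
    exact h3
  · intro e he hne
    exact hC3 e (mem_filter.2 ⟨he, hne⟩)

/-- on a cut of size three every member of the cover has exactly two edges -/
theorem two {K : Finset E} (hK : K.card = 3) (C : Fin 6 → Finset E)
    (hev : ∀ i, Even (K.filter (fun e => e ∈ C i)).card)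
    (h4 : ∀ e ∈ K, (univ.filter (fun i => e ∈ C i)).card = 4) :
    ∀ i, (K.filter (fun e => e ∈ C i)).card = 2 := by
  have hle : ∀ i, (K.filter (fun e => e ∈ C i)).card ≤ 2 := by
    intro i
    have h1 : (K.filter (fun e => e ∈ C i)).card ≤ 3 := by
      rw [← hK]; exact card_filter_le _ _
    obtain ⟨r, hr⟩ := hev i
    omega
  have hsum : ∑ i : Fin 6, (K.filter (fun e => e ∈ C i)).card = 12 := by
    have h1 : ∑ i : Fin 6, (K.filter (fun e => e ∈ C i)).card =
        ∑ e ∈ K, (univ.filter (fun i : Fin 6 => e ∈ C i)).card := by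
      simp only [card_filter]
      rw [sum_comm]
    rw [h1, sum_congr rfl h4, sum_const, hK]
    rfl
  intro i
  by_contra hne
  have hlt : (K.filter (fun e => e ∈ C i)).card < 2 := lt_of_le_of_ne (hle i) hne
  have h2 : ∑ i : Fin 6, (K.filter (fun e => e ∈ C i)).card < ∑ _i : Fin 6, 2 :=
    sum_lt_sum (fun j _ => hle j) ⟨i, mem_univ i, hlt⟩
  rw [hsum] at h2
  simp at h2

/-- the fibres of the map to the missed edge -/
theorem fibre {K : Finset E} (hK : K.card = 3) (C : Fin 6 → Finset E)
    (hev : ∀ i, Even (K.filter (fun e => e ∈ C i)).card)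
    (h4 : ∀ e ∈ K, (univ.filter (fun i => e ∈ C i)).card = 4) (D : Finset E) :
    (univ.filter (fun i => K.filter (fun e => e ∉ C i) = D)).card =
      if ∃ e ∈ K, D = {e} then 2 else 0 := by
  have h1 : ∀ i, (K.filter (fun e => e ∉ C i)).card = 1 := by
    intro i
    have := two hK C hev h4 i
    have h2 := card_filter_add_card_filter_not (s := K) (fun e => e ∈ C i)
    omega
  split_ifs with h
  · obtain ⟨e, he, rfl⟩ := h
    have h2 : (univ.filter (fun i => K.filter (fun e => e ∉ C i) = {e})) =
        univ.filter (fun i => ¬ e ∈ C i) := by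
      ext i
      simp only [mem_filter, mem_univ, true_and]
      constructor
      · intro h3
        have : e ∈ K.filter (fun e => e ∉ C i) := by rw [h3]; exact mem_singleton_self e
        exact (mem_filter.1 this).2
      · intro h3
        obtain ⟨e', he'⟩ := card_eq_one.1 (h1 i)
        have : e ∈ K.filter (fun e => e ∉ C i) := mem_filter.2 ⟨he, h3⟩
        rw [he'] at this ⊢
        rw [mem_singleton.1 this]
    rw [h2]
    have h3 := card_filter_add_card_filter_not (s := (univ : Finset (Fin 6))) (fun i => e ∈ C i)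
    rw [h4 e he, card_univ, Fintype.card_fin] at h3
    omega
  · rw [card_eq_zero, filter_eq_empty_iff]
    intro i _ hi
    obtain ⟨e', he'⟩ := card_eq_one.1 (h1 i)
    apply h
    refine ⟨e', ?_, ?_⟩
    · have : e' ∈ K.filter (fun e => e ∉ C i) := by rw [he']; exact mem_singleton_self e'
      exact (mem_filter.1 this).1
    · rw [← hi, he']

/-- matching the two covers along the cut -/
theorem perm {K : Finset E} (hK : K.card = 3) (C D : Fin 6 → Finset E)
    (hev : ∀ i, Even (K.filter (fun e => e ∈ C i)).card)
    (h4 : ∀ e ∈ K, (univ.filter (fun i => e ∈ C i)).card = 4)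
    (hev' : ∀ i, Even (K.filter (fun e => e ∈ D i)).card)
    (h4' : ∀ e ∈ K, (univ.filter (fun i => e ∈ D i)).card = 4) :
    ∃ σ : Fin 6 ≃ Fin 6, ∀ i, ∀ e ∈ K, (e ∈ D (σ i) ↔ e ∈ C i) := by
  have hc : ∀ c : Finset E, Nonempty ({i : Fin 6 // K.filter (fun e => e ∉ C i) = c} ≃
      {i : Fin 6 // K.filter (fun e => e ∉ D i) = c}) := by
    intro c
    refine ⟨Fintype.equivOfCardEq ?_⟩
    rw [Fintype.card_subtype, Fintype.card_subtype, fibre hK C hev h4, fibre hK D hev' h4']
  refine ⟨Equiv.ofFiberEquiv fun c => (hc c).some, fun i e he => ?_⟩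
  have h := Equiv.ofFiberEquiv_map (fun c => (hc c).some) i
  have h1 : e ∈ K.filter (fun e => e ∉ D (Equiv.ofFiberEquiv (fun c => (hc c).some) i)) ↔
      e ∈ K.filter (fun e => e ∉ C i) := by rw [h]
  rw [mem_filter, mem_filter] at h1
  simp only [he, true_and] at h1
  exact not_iff_not.1 h1

end FGlue

theorem ful_glue (s t : E → V) (S : Finset E) (x : V → Bool) (hx : (cut s t S x).card = 3)
    (ht : ∃ e ∈ S, x (s e) = true ∧ x (t e) = true)
    (hf : ∃ e ∈ S, x (s e) = false ∧ x (t e) = false)
    (ih : ∀ (S' : Finset E) (f : V → V), S' ⊆ S → (∀ e ∈ S, e ∉ S' → f (s e) = f (t e)) →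
      S'.card < S.card → Ful (fun e => f (s e)) (fun e => f (t e)) S') : Ful s t S := by
  obtain ⟨C, hC1, hC2, hC3, hC4, hC5⟩ := FGlue.side s t S x true ht ih
  obtain ⟨D, hD1, hD2, hD3, hD4, hD5⟩ := FGlue.side s t S x false hf ih
  have hcut : ∀ (A : Finset E), A ⊆ S → cut s t A x = (cut s t S x).filter (fun e => e ∈ A) := by
    intro A hA
    ext e
    simp only [cut, mem_filter]
    constructor
    · rintro ⟨h1, h2⟩; exact ⟨⟨hA h1, h2⟩, h1⟩
    · rintro ⟨⟨_, h2⟩, h1⟩; exact ⟨h1, h2⟩
  obtain ⟨σ, hσ⟩ := FGlue.perm hx C D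
    (fun i => by rw [← hcut _ (hC1 i)]; exact hC3 i)
    (fun e he => by
      rw [cut, mem_filter] at he
      refine hC5 e he.1 ?_
      rintro ⟨h1, h2⟩
      exact he.2 (h1.trans h2.symm))
    (fun i => by rw [← hcut _ (hD1 i)]; exact hD3 i)
    (fun e he => by
      rw [cut, mem_filter] at he
      refine hD5 e he.1 ?_
      rintro ⟨h1, h2⟩
      exact he.2 (h1.trans h2.symm))
  have tri : ∀ e, ¬ (x (s e) = true ∧ x (t e) = true) → ¬ (x (s e) = false ∧ x (t e) = false) →
      x (s e) ≠ x (t e) := by
    intro e
    generalize x (s e) = p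
    generalize x (t e) = q
    cases p <;> cases q <;> simp
  have kC : ∀ i e, e ∈ D (σ i) → ¬ (x (s e) = true ∧ x (t e) = true) → e ∈ C i := by
    intro i e he h1
    have h2 : e ∈ cut s t S x := by
      rw [cut, mem_filter]
      exact ⟨hD1 _ he, tri e h1 (hD2 _ e he)⟩
    exact (hσ i e h2).1 he
  have kD : ∀ i e, e ∈ C i → ¬ (x (s e) = false ∧ x (t e) = false) → e ∈ D (σ i) := by
    intro i e he h1
    have h2 : e ∈ cut s t S x := by
      rw [cut, mem_filter]
      exact ⟨hC1 _ he, tri e (hC2 _ e he) h1⟩
    exact (hσ i e h2).2 he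
  refine ⟨fun i => C i ∪ D (σ i), fun i => union_subset (hC1 i) (hD1 _), ?_, ?_⟩
  · intro i v
    cases hv : x v
    · have h1 : deg s t (C i ∪ D (σ i)) v = deg s t (C i) v := by
        unfold deg
        refine (sum_subset subset_union_left ?_).symm
        intro e he hne
        have he2 : e ∈ D (σ i) := by
          rcases mem_union.1 he with h | h
          · exact absurd h hne
          · exact h
        have h3 : x (s e) = true ∧ x (t e) = true := by
          by_contra h
          exact hne (kC i e he2 h)
        have h4 : s e ≠ v := by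
          intro h; rw [h, hv] at h3; simp at h3
        have h5 : t e ≠ v := by
          intro h; rw [h, hv] at h3; simp at h3
        simp [h4, h5]
      show Even (deg s t (C i ∪ D (σ i)) v)
      rw [h1]
      exact hC4 i v (by rw [hv]; simp)
    · have h1 : deg s t (C i ∪ D (σ i)) v = deg s t (D (σ i)) v := by
        unfold deg
        refine (sum_subset subset_union_right ?_).symm
        intro e he hne
        have he2 : e ∈ C i := by
          rcases mem_union.1 he with h | h
          · exact h
          · exact absurd h hne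
        have h3 : x (s e) = false ∧ x (t e) = false := by
          by_contra h
          exact hne (kD i e he2 h)
        have h4 : s e ≠ v := by
          intro h; rw [h, hv] at h3; simp at h3
        have h5 : t e ≠ v := by
          intro h; rw [h, hv] at h3; simp at h3
        simp [h4, h5]
      show Even (deg s t (C i ∪ D (σ i)) v)
      rw [h1]
      exact hD4 (σ i) v (by rw [hv]; simp)
  · intro e he
    by_cases h : x (s e) = true ∧ x (t e) = true
    · have h1 : univ.filter (fun i => e ∈ C i ∪ D (σ i)) =
          (univ.filter (fun j => e ∈ D j)).map σ.symm.toEmbedding := by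
        ext i
        simp only [mem_filter, mem_univ, true_and, mem_union, mem_map, Equiv.coe_toEmbedding]
        constructor
        · rintro (h2 | h2)
          · exact absurd h (hC2 i e h2)
          · exact ⟨σ i, h2, by simp⟩
        · rintro ⟨j, hj, rfl⟩
          right
          simpa using hj
      show (univ.filter (fun i => e ∈ C i ∪ D (σ i))).card = 4
      rw [h1, card_map]
      refine hD5 e he ?_
      rw [h.1]; simp
    · have h1 : univ.filter (fun i => e ∈ C i ∪ D (σ i)) = univ.filter (fun i => e ∈ C i) := by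
        ext i
        simp only [mem_filter, mem_univ, true_and, mem_union]
        exact ⟨fun h2 => h2.elim id (fun h3 => kC i e h3 h), Or.inl⟩
      show (univ.filter (fun i => e ∈ C i ∪ D (σ i))).card = 4
      rw [h1]
      exact hC5 e he h

end Pool.Agent.TH362.FO
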