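import Pool.Agent.TH362.FO.Defs
import Pool.Agent.TH362.TF.Basic

/-! Induction along cuts of size three of Petersen quotients. -/

set_option autoImplicit false

namespace Pool.Agent.TH362.FO

open Finset Pool.Agent.TH362.TF

variable {V E : Type} [Fintype V] [DecidableEq V] [Fintype E] [DecidableEq E]

/-- Two adjacent vertices of the Petersen graph avoiding a given one. -/
theorem Frame.two_far : ∀ k : Fin 10, ∃ p q : Fin 10, p ≠ k ∧ q ≠ k ∧ padj p q = true := by
  decide

theorem frame (P Q : (E → V) → (E → V) → Finset E → Prop)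
    (hP : ∀ (s t : E → V) (S S' : Finset E) (f : V → V), P s t S → S' ⊆ S →
      (∀ e ∈ S, e ∉ S' → f (s e) = f (t e)) → P (fun e => f (s e)) (fun e => f (t e)) S')
    (halt : ∀ (s t : E → V) (S : Finset E), N1 s t S → P s t S → NZ s t S ∨ PQ s t S)
    (hNZ : ∀ (s t : E → V) (S : Finset E), NZ s t S → Q s t S)
    (hpet : ∀ (s t : E → V) (S : Finset E) (κ : V → Fin 10), N1 s t S → IsPQ s t S κ →
      (∀ e ∈ S, κ (s e) ≠ κ (t e)) → Q s t S)
    (hglue : ∀ (s t : E → V) (S : Finset E) (x : V → Bool), (cut s t S x).card = 3 →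
      (∃ e ∈ S, x (s e) = true ∧ x (t e) = true) →
      (∃ e ∈ S, x (s e) = false ∧ x (t e) = false) →
      (∀ (S' : Finset E) (f : V → V), S' ⊆ S → (∀ e ∈ S, e ∉ S' → f (s e) = f (t e)) →
        S'.card < S.card → Q (fun e => f (s e)) (fun e => f (t e)) S') → Q s t S)
    (s t : E → V) (S : Finset E) (h1 : N1 s t S) (h : P s t S) : Q s t S := by
  have main : ∀ (n : ℕ) (s t : E → V) (S : Finset E), S.card = n → N1 s t S → P s t S →
      Q s t S := by
    intro n
    induction n using Nat.strong_induction_on with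
    | _ n ih =>
      intro s t S hn h1 h
      rcases halt s t S h1 h with hz | ⟨κ, hκ⟩
      · exact hNZ s t S hz
      by_cases hall : ∀ e ∈ S, κ (s e) ≠ κ (t e)
      · exact hpet s t S κ h1 hκ hall
      · have hex : ∃ e ∈ S, κ (s e) = κ (t e) := by
          by_contra hc
          exact hall (fun e he hk => hc ⟨e, he, hk⟩)
        obtain ⟨e, he, hek⟩ := hex
        refine hglue s t S (fun v => decide (κ v = κ (s e))) (hκ.1 (κ (s e))) ?_ ?_ ?_
        · refine ⟨e, he, ?_, ?_⟩
          · exact decide_eq_true rfl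
          · exact decide_eq_true hek.symm
        · obtain ⟨p, q, hp, hq, hpq⟩ := Frame.two_far (κ (s e))
          obtain ⟨e', he', hj⟩ := hκ.2 p q hpq
          refine ⟨e', he', ?_, ?_⟩
          · rcases hj with ⟨a, _⟩ | ⟨a, _⟩
            · exact decide_eq_false (fun hc => hp (a.symm.trans hc))
            · exact decide_eq_false (fun hc => hq (a.symm.trans hc))
          · rcases hj with ⟨_, b⟩ | ⟨_, b⟩
            · exact decide_eq_false (fun hc => hq (b.symm.trans hc))
            · exact decide_eq_false (fun hc => hp (b.symm.trans hc))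
        · intro S' f hS hf hlt
          exact ih S'.card (hn ▸ hlt) _ _ S' rfl (quot_n1 hS hf h1) (hP s t S S' f h hS hf)
  exact main S.card s t S rfl h1 h

end Pool.Agent.TH362.FO
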