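import Pool.Agent.TH362.FO.PSum
import Mathlib.Data.Fin.VecNotation
import Mathlib.Data.Fintype.Prod
import Mathlib.Data.ZMod.Basic
import Mathlib.Algebra.BigOperators.Ring.Finset

/-!
Covers by six even subgraphs from nowhere-zero flows with four values and from the Petersen graph.
-/

set_option autoImplicit false

namespace Pool.Agent.TH362.FO

open Finset Pool.Agent.TH362.TF

variable {V E : Type} [Fintype V] [DecidableEq V] [Fintype E] [DecidableEq E]

namespace Ful

/-- Six additive functions on the group of the flows. -/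
def ch (i : Fin 6) (x : TF.F) : ZMod 2 :=
  match i with
  | 0 => x.1 | 1 => x.1 | 2 => x.2 | 3 => x.2 | 4 => x.1 + x.2 | 5 => x.1 + x.2

private theorem ch_add (i : Fin 6) (x y : TF.F) : ch i (x + y) = ch i x + ch i y := by
  revert i x y
  decide

private theorem ch_zero (i : Fin 6) : ch i 0 = 0 := by
  revert i
  decide

private theorem ch_card : ∀ x : TF.F, x ≠ 0 →
    (univ.filter (fun i : Fin 6 => ch i x ≠ 0)).card = 4 := by
  decide

private theorem z2 : ∀ a : ZMod 2, a ≠ 0 → a = 1 := by
  decide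

private theorem even_of_cast (n : ℕ) (h : (n : ZMod 2) = 0) : Even n := by
  rw [ZMod.natCast_eq_zero_iff] at h
  exact even_iff_two_dvd.2 h

/-- The partner of the class `k` in the perfect matching `i` of the Petersen graph. -/
def mt (i : Fin 6) : Fin 10 → Fin 10 :=
  match i with
  | 0 => ![1, 0, 3, 2, 9, 7, 8, 5, 6, 4]
  | 1 => ![1, 0, 7, 4, 3, 8, 9, 2, 5, 6]
  | 2 => ![4, 2, 1, 8, 0, 7, 9, 5, 3, 6]
  | 3 => ![4, 6, 3, 2, 0, 8, 1, 9, 5, 7]
  | 4 => ![5, 2, 1, 4, 3, 0, 8, 9, 6, 7]
  | 5 => ![5, 6, 7, 8, 9, 0, 1, 2, 3, 4]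

private theorem mt_symm : ∀ (i : Fin 6) (k l : Fin 10), mt i k = l → mt i l = k := by
  decide

private theorem mt_sum : ∀ (i : Fin 6) (k : Fin 10),
    ∑ j, (if mt i k ≠ nb k j then 1 else 0) = (2 : ℕ) := by
  decide

private theorem mt_card : ∀ k l : Fin 10, padj k l = true →
    (univ.filter (fun i : Fin 6 => mt i k ≠ l)).card = 4 := by
  decide

end Ful

open Ful

theorem ful_nz (s t : E → V) (S : Finset E) (h : NZ s t S) : Ful s t S := by
  obtain ⟨φ, h1, h2⟩ := h
  refine ⟨fun i => S.filter (fun e => ch i (φ e) ≠ 0), fun i => filter_subset _ _, ?_, ?_⟩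
  · intro i v
    apply even_of_cast
    have h3 := h2 v
    unfold Cons at h3
    let χ : TF.F →+ ZMod 2 := ⟨⟨ch i, ch_zero i⟩, ch_add i⟩
    have h4 : χ (∑ e ∈ S, ((if s e = v then φ e else 0) + (if t e = v then φ e else 0))) = 0 := by
      rw [h3, map_zero]
    rw [map_sum] at h4
    unfold deg
    rw [sum_filter, Nat.cast_sum]
    refine Eq.trans (sum_congr rfl fun e _ => ?_) h4
    have h5 : ∀ x, χ x = ch i x := fun x => rfl
    by_cases hc : ch i (φ e) = 0
    · rw [if_neg (not_not.2 hc), map_add, Nat.cast_zero]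
      split_ifs <;> simp [h5, hc, ch_zero]
    · rw [if_pos hc, map_add]
      have h6 := z2 _ hc
      split_ifs
      · rw [h5, h6]; decide
      · simp [h5, h6, ch_zero]
      · simp [h5, h6, ch_zero]
      · simp [h5, ch_zero]
  · intro e he
    have h3 : (univ.filter (fun i : Fin 6 => e ∈ S.filter (fun e => ch i (φ e) ≠ 0))) =
        univ.filter (fun i : Fin 6 => ch i (φ e) ≠ 0) := by
      ext i
      simp [he]
    rw [h3]
    exact ch_card _ (h1 e he)

theorem ful_pet (s t : E → V) (S : Finset E) (κ : V → Fin 10) (h1 : N1 s t S)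
    (h : IsPQ s t S κ) (hin : ∀ e ∈ S, κ (s e) ≠ κ (t e)) : Ful s t S := by
  refine ⟨fun i => S.filter (fun e => mt i (κ (s e)) ≠ κ (t e)), fun i => filter_subset _ _, ?_, ?_⟩
  · intro i v
    have h3 := pet_sum (A := ℕ) (fun k l => if mt i k ≠ l then 1 else 0) s t S κ h1 h hin v
    have h4 : deg s t (S.filter (fun e => mt i (κ (s e)) ≠ κ (t e))) v =
        ∑ e ∈ S, ((if s e = v then (if mt i (κ (s e)) ≠ κ (t e) then 1 else 0) else 0) +
          (if t e = v then (if mt i (κ (t e)) ≠ κ (s e) then 1 else 0) else 0)) := by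
      unfold deg
      rw [sum_filter]
      refine sum_congr rfl fun e _ => ?_
      by_cases hc : mt i (κ (s e)) = κ (t e)
      · have hc' := mt_symm _ _ _ hc
        rw [if_neg (not_not.2 hc), if_neg (not_not.2 hc), if_neg (not_not.2 hc')]
        simp
      · have hc' : mt i (κ (t e)) ≠ κ (s e) := fun hh => hc (mt_symm _ _ _ hh)
        rw [if_pos hc, if_pos hc, if_pos hc']
    rw [h4, h3, mt_sum]
    split_ifs
    · exact Even.zero
    · exact even_two
  · intro e he
    have h3 : (univ.filter (fun i : Fin 6 =>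
        e ∈ S.filter (fun e => mt i (κ (s e)) ≠ κ (t e)))) =
        univ.filter (fun i : Fin 6 => mt i (κ (s e)) ≠ κ (t e)) := by
      ext i
      simp [he]
    rw [h3]
    exact mt_card _ _ (pet_adj s t S κ h hin e he)

end Pool.Agent.TH362.FO
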