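import Pool.Agent.TH362.FO.Alt
import Pool.Agent.TH362.FO.Frame
import Pool.Agent.TH362.FO.Ful
import Pool.Agent.TH362.FO.FGlue

/-! Covers by six even subgraphs for graphs with few odd vertices or few edge cuts of size three. -/

set_option autoImplicit false

namespace Pool.Agent.TH362.FO

open Finset Pool.Agent.TH362.TF

variable {V E : Type} [Fintype V] [DecidableEq V] [Fintype E] [DecidableEq E]

theorem ful_main (s t : E → V) (S : Finset E) (h1 : N1 s t S) (h : Few s t S) : Ful s t S :=
  frame Few Ful (fun _ _ _ _ _ h hS hf => few_quot hS hf h) alt ful_nz ful_pet ful_glue s t S h1 h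

end Pool.Agent.TH362.FO
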