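import Pool.Agent.TH362.FO.Defs
import Mathlib.Algebra.BigOperators.Ring.Finset
import Mathlib.Tactic.LinearCombination

/-!
Gluing orientable five cycle double covers at an edge cut of size three.
-/

set_option autoImplicit false

namespace Pool.Agent.TH362.FO

open Finset Pool.Agent.TH362.TF

namespace ODGlue

/-- The entries of the unit vectors. -/
def io (x y : Fin 5) : ℤ := if x = y then 1 else 0

theorem io_self (x : Fin 5) : io x x = 1 := if_pos rfl

theorem io_ne {x y : Fin 5} (h : x ≠ y) : io x y = 0 := if_neg h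

theorem io_cases (x y : Fin 5) : (x = y ∧ io x y = 1) ∨ (x ≠ y ∧ io x y = 0) := by
  by_cases h : x = y
  · exact Or.inl ⟨h, if_pos h⟩
  · exact Or.inr ⟨h, if_neg h⟩

theorem io_perm (σ : Equiv.Perm (Fin 5)) (x y : Fin 5) : io (σ x) (σ y) = io x y := by
  unfold io
  simp only [EmbeddingLike.apply_eq_iff_eq]

theorem eq_of_io {m n : Fin 5} (h : io m m = io m n) : m = n := by
  rcases io_cases m n with h1 | h1
  · exact h1.1
  · rw [io_self, h1.2] at h
    exact absurd h (by norm_num)

/-- The difference of two different unit vectors. -/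
def Df (r : Fin 5 → ℤ) : Prop := ∃ p q, p ≠ q ∧ ∀ x, r x = io x p - io x q

theorem tri (r0 r1 r2 : Fin 5 → ℤ) (h0 : Df r0) (h1 : Df r1) (h2 : Df r2)
    (H : ∀ x, r0 x + r1 x + r2 x = 0) :
    ∃ (i j k : Fin 5) (ε : ℤ), i ≠ j ∧ i ≠ k ∧ j ≠ k ∧ (ε = 1 ∨ ε = -1) ∧
      (∀ x, r0 x = ε * (io x i - io x j)) ∧ (∀ x, r1 x = ε * (io x j - io x k)) ∧
      ∀ x, r2 x = ε * (io x k - io x i) := by
  obtain ⟨p, q, hpq, e0⟩ := h0
  obtain ⟨r, s, hrs, e1⟩ := h1
  obtain ⟨m, n, hmn, e2⟩ := h2
  have K : ∀ x, io x p - io x q + (io x r - io x s) + (io x m - io x n) = 0 := by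
    intro x
    rw [← e0, ← e1, ← e2]
    exact H x
  by_cases hps : p = s
  · subst hps
    by_cases hqr : q = r
    · subst hqr
      have k := K m
      exact absurd (eq_of_io (by linarith)) hmn
    · have k1 := K q
      rw [io_self, io_ne hqr] at k1
      have hqm : q = m := by
        rcases io_cases q m with h | h
        · exact h.1
        · rcases io_cases q n with h' | h' <;> omega
      subst hqm
      have k2 := K r
      have hrn : r = n := eq_of_io (by linarith)
      subst hrn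
      refine ⟨q, p, r, -1, hpq.symm, hmn, hrs.symm, Or.inr rfl, fun x => ?_, fun x => ?_,
        fun x => ?_⟩
      · rw [e0]; ring
      · rw [e1]; ring
      · rw [e2]; ring
  · have k1 := K p
    rw [io_self, io_ne hpq, io_ne hps] at k1
    have hpn : p = n := by
      rcases io_cases p n with h | h
      · exact h.1
      · rcases io_cases p r with h' | h' <;> rcases io_cases p m with h'' | h'' <;> omega
    subst hpn
    have k2 := K r
    rw [io_self, io_ne hrs] at k2
    have hrq : r = q := by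
      rcases io_cases r q with h | h
      · exact h.1
      · rcases io_cases r m with h' | h' <;> omega
    subst hrq
    have k3 := K m
    have hms : m = s := eq_of_io (by linarith)
    subst hms
    refine ⟨p, r, m, 1, hpq, hmn.symm, hrs, Or.inl rfl, fun x => ?_, fun x => ?_,
      fun x => ?_⟩
    · rw [e0]; ring
    · rw [e1]; ring
    · rw [e2]; ring

theorem ext3 {i j k i' j' k' : Fin 5} (h1 : i ≠ j) (h2 : i ≠ k) (h3 : j ≠ k)
    (h1' : i' ≠ j') (h2' : i' ≠ k') (h3' : j' ≠ k') :
    ∃ σ : Equiv.Perm (Fin 5), σ i = i' ∧ σ j = j' ∧ σ k = k' := by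
  obtain ⟨σ1, hσ1⟩ : ∃ σ1 : Equiv.Perm (Fin 5), σ1 i = i' :=
    ⟨Equiv.swap i i', Equiv.swap_apply_left i i'⟩
  have a1 : i' ≠ σ1 j := by
    rw [← hσ1]
    exact fun h => h1 (σ1.injective h)
  obtain ⟨σ2, hσ2, hσ2'⟩ : ∃ σ2 : Equiv.Perm (Fin 5), σ2 i' = i' ∧ σ2 (σ1 j) = j' :=
    ⟨Equiv.swap (σ1 j) j', Equiv.swap_apply_of_ne_of_ne a1 h1', Equiv.swap_apply_left _ _⟩
  have a2 : i' ≠ σ2 (σ1 k) := by
    intro h
    rw [← hσ2] at h
    have h4 := σ2.injective h
    rw [← hσ1] at h4
    exact h2 (σ1.injective h4)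
  have a3 : j' ≠ σ2 (σ1 k) := by
    intro h
    rw [← hσ2'] at h
    exact h3 (σ1.injective (σ2.injective h))
  refine ⟨(σ1.trans σ2).trans (Equiv.swap (σ2 (σ1 k)) k'), ?_, ?_, ?_⟩
  · rw [Equiv.trans_apply, Equiv.trans_apply, hσ1, hσ2]
    exact Equiv.swap_apply_of_ne_of_ne a2 h2'
  · rw [Equiv.trans_apply, Equiv.trans_apply, hσ2']
    exact Equiv.swap_apply_of_ne_of_ne a3 h3'
  · rw [Equiv.trans_apply, Equiv.trans_apply]
    exact Equiv.swap_apply_left _ _

theorem mat (r0 r1 r2 q0 q1 q2 : Fin 5 → ℤ) (h0 : Df r0) (h1 : Df r1) (h2 : Df r2)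
    (H : ∀ x, r0 x + r1 x + r2 x = 0) (g0 : Df q0) (g1 : Df q1) (g2 : Df q2)
    (G : ∀ x, q0 x + q1 x + q2 x = 0) :
    ∃ (σ : Equiv.Perm (Fin 5)) (ε : ℤ), (ε = 1 ∨ ε = -1) ∧ (∀ x, r0 x = ε * q0 (σ x)) ∧
      (∀ x, r1 x = ε * q1 (σ x)) ∧ ∀ x, r2 x = ε * q2 (σ x) := by
  obtain ⟨i, j, k, ε, n1, n2, n3, hε, a0, a1, a2⟩ := tri r0 r1 r2 h0 h1 h2 H
  obtain ⟨i', j', k', δ, n1', n2', n3', hδ, b0, b1, b2⟩ := tri q0 q1 q2 g0 g1 g2 G
  obtain ⟨σ, s1, s2, s3⟩ := ext3 n1 n2 n3 n1' n2' n3'
  have hδ2 : δ * δ = 1 := by rcases hδ with rfl | rfl <;> norm_num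
  refine ⟨σ, ε * δ, ?_, fun x => ?_, fun x => ?_, fun x => ?_⟩
  · rcases hε with rfl | rfl <;> rcases hδ with rfl | rfl <;> norm_num
  · rw [a0, b0, ← s1, ← s2, io_perm, io_perm]
    linear_combination (-ε * (io x i - io x j)) * hδ2
  · rw [a1, b1, ← s2, ← s3, io_perm, io_perm]
    linear_combination (-ε * (io x j - io x k)) * hδ2
  · rw [a2, b2, ← s3, ← s1, io_perm, io_perm]
    linear_combination (-ε * (io x k - io x i)) * hδ2

section

variable {V E : Type} [Fintype V] [DecidableEq V] [Fintype E] [DecidableEq E]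

/-- The divergence at the vertex obtained from a side of the cut. -/
theorem dv_side (s t : E → V) (S : Finset E) (x : V → Bool) (c : Bool) (f : V → V) (a : V)
    (hf : ∀ w, f w = a ↔ x w = c) (φ : E → ℤ) :
    dv (fun e => f (s e)) (fun e => f (t e))
      (S.filter (fun e => ¬ (x (s e) = c ∧ x (t e) = c))) φ a =
      ∑ e ∈ cut s t S x, (if x (s e) = c then 1 else -1) * φ e := by
  unfold dv cut
  rw [sum_filter, sum_filter]
  refine sum_congr rfl fun e _ => ?_
  simp only [hf]
  by_cases h1 : x (s e) = c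
  · by_cases h2 : x (t e) = c
    · have h3 : ¬ (x (s e) ≠ x (t e)) := by
        rw [h1, h2]; simp
      rw [if_neg (not_not.2 ⟨h1, h2⟩), if_neg h3]
    · have h3 : x (s e) ≠ x (t e) := by
        rw [h1]; exact fun h => h2 h.symm
      rw [if_pos (fun h => h2 h.2), if_pos h3, if_pos h1, if_neg h2, if_pos h1]
      ring
  · by_cases h2 : x (t e) = c
    · have h3 : x (s e) ≠ x (t e) := by
        rw [h2]; exact h1
      rw [if_pos (fun h => h1 h.1), if_pos h3, if_neg h1, if_pos h2, if_neg h1]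
      ring
    · have h3 : ¬ (x (s e) ≠ x (t e)) := by
        revert h1 h2
        cases x (s e) <;> cases x (t e) <;> cases c <;> simp
      rw [if_pos (fun h => h1 h.1), if_neg h3, if_neg h1, if_neg h2, sub_zero]

/-- The divergence at the other vertices. -/
theorem dv_off (s t : E → V) (S : Finset E) (x : V → Bool) (c : Bool) (f : V → V) (v : V)
    (hv : x v ≠ c) (hf : ∀ w, f w = v ↔ w = v) (φ : E → ℤ) :
    dv (fun e => f (s e)) (fun e => f (t e))
      (S.filter (fun e => ¬ (x (s e) = c ∧ x (t e) = c))) φ v = dv s t S φ v := by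
  unfold dv
  rw [sum_filter]
  refine sum_congr rfl fun e _ => ?_
  simp only [hf]
  by_cases h : x (s e) = c ∧ x (t e) = c
  · rw [if_neg (not_not.2 h)]
    have h1 : s e ≠ v := fun h' => hv (h' ▸ h.1)
    have h2 : t e ≠ v := fun h' => hv (h' ▸ h.2)
    rw [if_neg h1, if_neg h2, sub_zero]
  · rw [if_pos h]

theorem dv_congr (s t : E → V) (S : Finset E) (φ ψ : E → ℤ) (v : V)
    (h : ∀ e ∈ S, s e = v ∨ t e = v → φ e = ψ e) : dv s t S φ v = dv s t S ψ v := by
  unfold dv
  refine sum_congr rfl fun e he => ?_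
  by_cases h1 : s e = v
  · rw [h e he (Or.inl h1)]
  · by_cases h2 : t e = v
    · rw [h e he (Or.inr h2)]
    · rw [if_neg h1, if_neg h1, if_neg h2, if_neg h2]

theorem dv_smul (s t : E → V) (S : Finset E) (φ : E → ℤ) (c : ℤ) (v : V) :
    dv s t S (fun e => c * φ e) v = c * dv s t S φ v := by
  unfold dv
  rw [mul_sum]
  refine sum_congr rfl fun e _ => ?_
  split_ifs <;> ring

/-- The rows of a cover, up to sign. -/
theorem df_of (F : Fin 5 → E → ℤ) (e : E) (c : ℤ) (hc : c = 1 ∨ c = -1)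
    (h : ∃ i j, i ≠ j ∧ F i e = 1 ∧ F j e = -1 ∧ ∀ k, k ≠ i → k ≠ j → F k e = 0) :
    Df (fun i => c * F i e) := by
  obtain ⟨i, j, hij, h1, h2, h3⟩ := h
  have key : ∀ k, F k e = io k i - io k j := by
    intro k
    by_cases hi : k = i
    · subst hi
      rw [h1, io_self, io_ne hij]
      norm_num
    · by_cases hj : k = j
      · subst hj
        rw [h2, io_self, io_ne hi]
        norm_num
      · rw [h3 k hi hj, io_ne hi, io_ne hj]
        norm_num
  rcases hc with rfl | rfl
  · refine ⟨i, j, hij, fun k => ?_⟩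
    show 1 * F k e = _
    rw [key]
    ring
  · refine ⟨j, i, hij.symm, fun k => ?_⟩
    show -1 * F k e = _
    rw [key]
    ring

end

end ODGlue

variable {V E : Type} [Fintype V] [DecidableEq V] [Fintype E] [DecidableEq E]

open ODGlue in
theorem od_glue (s t : E → V) (S : Finset E) (x : V → Bool) (hx : (cut s t S x).card = 3)
    (ht : ∃ e ∈ S, x (s e) = true ∧ x (t e) = true)
    (hf : ∃ e ∈ S, x (s e) = false ∧ x (t e) = false)
    (ih : ∀ (S' : Finset E) (f : V → V), S' ⊆ S → (∀ e ∈ S, e ∉ S' → f (s e) = f (t e)) →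
      S'.card < S.card → OD (fun e => f (s e)) (fun e => f (t e)) S') : OD s t S := by
  -- one side
  have side : ∀ (c : Bool), (∃ e ∈ S, x (s e) = c ∧ x (t e) = c) →
      ∃ F : Fin 5 → E → ℤ, (∀ i v, x v ≠ c → dv s t S (F i) v = 0) ∧
        (∀ i, ∑ e ∈ cut s t S x, (if x (s e) = c then 1 else -1) * F i e = 0) ∧
        ∀ e ∈ S, ¬ (x (s e) = c ∧ x (t e) = c) →
          ∃ i j, i ≠ j ∧ F i e = 1 ∧ F j e = -1 ∧ ∀ k, k ≠ i → k ≠ j → F k e = 0 := by
    intro c hc
    obtain ⟨e0, he0, h1, h2⟩ := hc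
    have hfa : ∀ w, (fun v => if x v = c then s e0 else v) w = s e0 ↔ x w = c := by
      intro w
      by_cases hw : x w = c
      · exact ⟨fun _ => hw, fun _ => if_pos hw⟩
      · refine ⟨fun h => ?_, fun h => absurd h hw⟩
        have h' : w = s e0 := (if_neg hw).symm.trans h
        rw [h']
        exact h1
    have hfv : ∀ v, x v ≠ c → ∀ w, (fun v => if x v = c then s e0 else v) w = v ↔ w = v := by
      intro v hv w
      by_cases hw : x w = c
      · simp only [if_pos hw]
        constructor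
        · rintro rfl
          exact absurd h1 hv
        · rintro rfl
          exact absurd hw hv
      · simp only [if_neg hw]
    obtain ⟨F, c1, d1⟩ := ih (S.filter (fun e => ¬ (x (s e) = c ∧ x (t e) = c)))
      (fun v => if x v = c then s e0 else v) (filter_subset _ _) (by
        intro e he hn
        have h : x (s e) = c ∧ x (t e) = c := by
          by_contra hcon
          exact hn (mem_filter.2 ⟨he, hcon⟩)
        simp only [if_pos h.1, if_pos h.2]) (by
        refine card_lt_card ((filter_ssubset).2 ⟨e0, he0, ?_⟩)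
        exact not_not.2 ⟨h1, h2⟩)
    refine ⟨F, fun i v hv => ?_, fun i => ?_, fun e he hn => d1 e (mem_filter.2 ⟨he, hn⟩)⟩
    · rw [← dv_off s t S x c _ v hv (hfv v hv)]
      exact c1 i v
    · rw [← dv_side s t S x c _ (s e0) hfa]
      exact c1 i (s e0)
  obtain ⟨F1, c1, z1, d1⟩ := side true ht
  obtain ⟨F2, c2, z2, d2⟩ := side false hf
  obtain ⟨e0, e1, e2, h01, h02, h12, hcut⟩ := card_eq_three.1 hx
  have hmem : ∀ e ∈ cut s t S x, e ∈ S ∧ x (s e) ≠ x (t e) := fun e he => mem_filter.1 he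
  have sum3 : ∀ g : E → ℤ, ∑ e ∈ cut s t S x, g e = g e0 + g e1 + g e2 := by
    intro g
    rw [hcut, sum_insert (by simp [h01, h02]), sum_insert (by simp [h12]), sum_singleton]
    ring
  obtain ⟨sg, hsg⟩ : ∃ sg : E → ℤ, sg = fun e => if x (s e) = true then 1 else -1 := ⟨_, rfl⟩
  have hsg1 : ∀ e, sg e = 1 ∨ sg e = -1 := by
    intro e
    rw [hsg]
    by_cases h : x (s e) = true
    · exact Or.inl (if_pos h)
    · exact Or.inr (if_neg h)
  have hsgt : ∀ e, (if x (s e) = true then (1 : ℤ) else -1) = sg e := by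
    intro e
    rw [hsg]
  have hsgf : ∀ e, (if x (s e) = false then (1 : ℤ) else -1) = -sg e := by
    intro e
    rw [← hsgt e]
    generalize x (s e) = y
    cases y <;> decide
  have m0 : e0 ∈ cut s t S x := by rw [hcut]; simp
  have m1 : e1 ∈ cut s t S x := by rw [hcut]; simp
  have m2 : e2 ∈ cut s t S x := by rw [hcut]; simp
  have D1 : ∀ e ∈ cut s t S x, Df (fun i => sg e * F1 i e) := by
    intro e he
    obtain ⟨h1, h2⟩ := hmem e he
    exact df_of F1 e (sg e) (hsg1 e) (d1 e h1 (fun h => h2 (h.1.trans h.2.symm)))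
  have D2 : ∀ e ∈ cut s t S x, Df (fun i => sg e * F2 i e) := by
    intro e he
    obtain ⟨h1, h2⟩ := hmem e he
    exact df_of F2 e (sg e) (hsg1 e) (d2 e h1 (fun h => h2 (h.1.trans h.2.symm)))
  have G1 : ∀ i, sg e0 * F1 i e0 + sg e1 * F1 i e1 + sg e2 * F1 i e2 = 0 := by
    intro i
    have h := z1 i
    rw [sum3] at h
    rw [hsgt, hsgt, hsgt] at h
    exact h
  have G2 : ∀ i, sg e0 * F2 i e0 + sg e1 * F2 i e1 + sg e2 * F2 i e2 = 0 := by
    intro i
    have h := z2 i
    rw [sum3] at h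
    rw [hsgf, hsgf, hsgf] at h
    linarith
  obtain ⟨σ, ε, hε, q0, q1, q2⟩ := mat _ _ _ _ _ _ (D1 e0 m0) (D1 e1 m1) (D1 e2 m2) G1
    (D2 e0 m0) (D2 e1 m1) (D2 e2 m2) G2
  have can : ∀ (e : E) (a b : ℤ), sg e * a = ε * (sg e * b) → a = ε * b := by
    intro e a b h
    rcases hsg1 e with h1 | h1 <;> rw [h1] at h <;> linarith
  have agree : ∀ e ∈ cut s t S x, ∀ i, F1 i e = ε * F2 (σ i) e := by
    intro e he i
    rw [hcut] at he
    simp only [mem_insert, mem_singleton] at he
    rcases he with rfl | rfl | rfl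
    · exact can _ _ _ (q0 i)
    · exact can _ _ _ (q1 i)
    · exact can _ _ _ (q2 i)
  refine ⟨fun i e => if x (s e) = true ∧ x (t e) = true then ε * F2 (σ i) e else F1 i e,
    fun i v => ?_, fun e he => ?_⟩
  · by_cases hv : x v = true
    · have h1 : dv s t S (fun e => if x (s e) = true ∧ x (t e) = true then ε * F2 (σ i) e
          else F1 i e) v = dv s t S (fun e => ε * F2 (σ i) e) v := by
        refine dv_congr s t S _ _ v fun e he hev => ?_
        by_cases hb : x (s e) = true ∧ x (t e) = true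
        · simp only [if_pos hb]
        · simp only [if_neg hb]
          refine agree e (mem_filter.2 ⟨he, fun h => hb ?_⟩) i
          rcases hev with h' | h'
          · rw [← h, h', hv]
            exact ⟨rfl, rfl⟩
          · rw [h, h', hv]
            exact ⟨rfl, rfl⟩
      rw [h1, dv_smul, c2 (σ i) v (by rw [hv]; decide), mul_zero]
    · have h1 : dv s t S (fun e => if x (s e) = true ∧ x (t e) = true then ε * F2 (σ i) e
          else F1 i e) v = dv s t S (F1 i) v := by
        refine dv_congr s t S _ _ v fun e he hev => ?_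
        have hb : ¬ (x (s e) = true ∧ x (t e) = true) := by
          rintro ⟨h2, h3⟩
          rcases hev with h' | h'
          · exact hv (h' ▸ h2)
          · exact hv (h' ▸ h3)
        simp only [if_neg hb]
      rw [h1]
      exact c1 i v hv
  · by_cases hb : x (s e) = true ∧ x (t e) = true
    · simp only [if_pos hb]
      obtain ⟨i, j, hij, h1, h2, h3⟩ := d2 e he (by
        rintro ⟨h4, -⟩
        rw [hb.1] at h4
        exact absurd h4 (by decide))
      rcases hε with rfl | rfl
      · refine ⟨σ.symm i, σ.symm j, fun h => hij (σ.symm.injective h), ?_, ?_, fun k hki hkj => ?_⟩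
        · rw [Equiv.apply_symm_apply, h1]; norm_num
        · rw [Equiv.apply_symm_apply, h2]; norm_num
        · rw [h3 (σ k) (fun h => hki (by rw [← h, Equiv.symm_apply_apply]))
            (fun h => hkj (by rw [← h, Equiv.symm_apply_apply]))]
          norm_num
      · refine ⟨σ.symm j, σ.symm i, fun h => hij (σ.symm.injective h).symm, ?_, ?_,
          fun k hkj hki => ?_⟩
        · rw [Equiv.apply_symm_apply, h2]; norm_num
        · rw [Equiv.apply_symm_apply, h1]; norm_num
        · rw [h3 (σ k) (fun h => hki (by rw [← h, Equiv.symm_apply_apply]))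
            (fun h => hkj (by rw [← h, Equiv.symm_apply_apply]))]
          norm_num
    · simp only [if_neg hb]
      exact d1 e he hb

end Pool.Agent.TH362.FO
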