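import Pool.Agent.TH362.FO.Defs
import Mathlib.Algebra.Ring.Int.Parity
import Mathlib.Algebra.Group.Prod
import Mathlib.Data.ZMod.Basic
import Mathlib.Algebra.BigOperators.Ring.Finset
import Mathlib.Algebra.BigOperators.Ring.Nat
import Mathlib.Data.Fin.VecNotation

/-!
Orientable double covers by five even subgraphs from flows with values in the group of order four.
-/

set_option autoImplicit false

namespace Pool.Agent.TH362.FO

open Finset Pool.Agent.TH362.TF

variable {V E : Type} [Fintype V] [DecidableEq V] [Fintype E] [DecidableEq E]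

namespace ODnz

omit [Fintype V] [Fintype E] in
/-- Eulerian orientation of an even edge set. -/
theorem orient (n : ℕ) : ∀ (s t : E → V) (D : Finset E), D.card = n →
    (∀ v, Even (deg s t D v)) → ∃ a : E → ℤ, (∀ e ∈ D, a e = 1 ∨ a e = -1) ∧
      (∀ e, e ∉ D → a e = 0) ∧ ∀ v, dv s t D a v = 0 := by
  induction n with
  | zero =>
    intro s t D hD _
    rw [Finset.card_eq_zero] at hD
    subst hD
    exact ⟨fun _ => 0, by simp, by simp, by simp [dv]⟩
  | succ n ih =>
    intro s t D hD hev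
    obtain ⟨e, he⟩ : D.Nonempty := by
      rw [← Finset.card_pos]; omega
    by_cases hl : s e = t e
    · -- a loop
      have hc : (D.erase e).card = n := by
        rw [Finset.card_erase_of_mem he]; omega
      have hev' : ∀ v, Even (deg s t (D.erase e) v) := by
        intro v
        have h1 := hev v
        unfold deg at h1 ⊢
        rw [← Finset.add_sum_erase D _ he, ← hl] at h1
        rw [Nat.even_add] at h1
        exact h1.1 ⟨_, rfl⟩
      obtain ⟨a, ha1, ha2, ha3⟩ := ih s t (D.erase e) hc hev'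
      refine ⟨Function.update a e 1, ?_, ?_, ?_⟩
      · intro g hg
        by_cases h : g = e
        · subst h; left; simp
        · rw [Function.update_of_ne h]
          exact ha1 g (Finset.mem_erase.2 ⟨h, hg⟩)
      · intro g hg
        have h : g ≠ e := fun h => hg (h ▸ he)
        rw [Function.update_of_ne h]
        exact ha2 g (fun h2 => hg (Finset.mem_of_mem_erase h2))
      · intro v
        have h1 := ha3 v
        unfold dv at h1 ⊢
        rw [← Finset.add_sum_erase D _ he, ← hl, sub_self, zero_add]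
        refine Eq.trans (Finset.sum_congr rfl fun g hg => ?_) h1
        rw [Function.update_of_ne (Finset.ne_of_mem_erase hg)]
    · -- lift two edges at `t e`
      set v := t e with hv
      obtain ⟨f, hf, hf1⟩ : ∃ f ∈ D.erase e,
          Odd ((if s f = v then 1 else 0) + (if t f = v then 1 else 0) : ℕ) := by
        by_contra hcon
        push Not at hcon
        have h1 := hev v
        unfold deg at h1
        rw [← Finset.add_sum_erase D _ he, Nat.even_add] at h1
        have h2 : Even (∑ x ∈ D.erase e, ((if s x = v then 1 else 0) +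
            (if t x = v then 1 else 0) : ℕ)) := by
          refine Finset.even_sum _ fun g hg => ?_
          exact Nat.not_odd_iff_even.1 (hcon g hg)
        have h3 := h1.2 h2
        rw [if_neg hl, if_pos hv.symm] at h3
        exact absurd h3 (by decide)
      have hfe : f ≠ e := Finset.ne_of_mem_erase hf
      have hfD : f ∈ D := Finset.mem_of_mem_erase hf
      -- the other end of `f`, and the sign
      obtain ⟨w, σ, hσ, hvw, hf2⟩ : ∃ (w : V) (σ : ℤ), (σ = 1 ∨ σ = -1) ∧ v ≠ w ∧
          ((s f = v ∧ t f = w ∧ σ = 1) ∨ (s f = w ∧ t f = v ∧ σ = -1)) := by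
        by_cases h1 : s f = v
        · by_cases h2 : t f = v
          · rw [if_pos h1, if_pos h2] at hf1
            exact absurd hf1 (by decide)
          · exact ⟨t f, 1, Or.inl rfl, fun h => h2 h.symm, Or.inl ⟨h1, rfl, rfl⟩⟩
        · by_cases h2 : t f = v
          · exact ⟨s f, -1, Or.inr rfl, fun h => h1 h.symm, Or.inr ⟨rfl, h2, rfl⟩⟩
          · rw [if_neg h1, if_neg h2] at hf1
            exact absurd hf1 (by decide)
      set t' : E → V := Function.update t e w with ht'
      have ht'e : t' e = w := by rw [ht']; simp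
      have ht'g : ∀ g, g ≠ e → t' g = t g := fun g hg => by rw [ht', Function.update_of_ne hg]
      have heD' : e ∈ D.erase f := Finset.mem_erase.2 ⟨hfe.symm, he⟩
      have hc : (D.erase f).card = n := by
        rw [Finset.card_erase_of_mem hfD]; omega
      have hev' : ∀ x, Even (deg s t' (D.erase f) x) := by
        intro x
        have h1 := hev x
        unfold deg at h1 ⊢
        rw [← Finset.add_sum_erase D _ hfD, ← Finset.add_sum_erase (D.erase f) _ heD'] at h1
        rw [← Finset.add_sum_erase (D.erase f) _ heD', ht'e]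
        have h2 : ∑ y ∈ (D.erase f).erase e, ((if s y = x then 1 else 0) +
            (if t' y = x then 1 else 0) : ℕ) = ∑ y ∈ (D.erase f).erase e,
            ((if s y = x then 1 else 0) + (if t y = x then 1 else 0) : ℕ) := by
          refine Finset.sum_congr rfl fun g hg => ?_
          rw [ht'g g (Finset.ne_of_mem_erase hg)]
        rw [h2]
        generalize ∑ y ∈ (D.erase f).erase e,
            ((if s y = x then 1 else 0) + (if t y = x then 1 else 0) : ℕ) = R at h1 ⊢
        rw [← hv] at h1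
        rcases hf2 with ⟨e1, e2, -⟩ | ⟨e1, e2, -⟩
        · rw [e1, e2] at h1
          rw [Nat.even_iff] at h1 ⊢
          split_ifs at h1 ⊢ <;> omega
        · rw [e1, e2] at h1
          rw [Nat.even_iff] at h1 ⊢
          split_ifs at h1 ⊢ <;> omega
      obtain ⟨a, ha1, ha2, ha3⟩ := ih s t' (D.erase f) hc hev'
      refine ⟨Function.update a f (σ * a e), ?_, ?_, ?_⟩
      · intro g hg
        by_cases h : g = f
        · subst h
          rw [Function.update_self]
          rcases ha1 e heD' with h1 | h1 <;> rcases hσ with h2 | h2 <;> rw [h1, h2] <;> decide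
        · rw [Function.update_of_ne h]
          exact ha1 g (Finset.mem_erase.2 ⟨h, hg⟩)
      · intro g hg
        have h : g ≠ f := fun h => hg (h ▸ hfD)
        rw [Function.update_of_ne h]
        exact ha2 g (fun h2 => hg (Finset.mem_of_mem_erase h2))
      · intro x
        have h1 := ha3 x
        unfold dv at h1 ⊢
        rw [← Finset.add_sum_erase D _ hfD, ← Finset.add_sum_erase (D.erase f) _ heD']
        rw [← Finset.add_sum_erase (D.erase f) _ heD', ht'e] at h1
        have h2 : ∑ y ∈ (D.erase f).erase e, ((if s y = x then a y else 0) -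
            (if t' y = x then a y else 0)) = ∑ y ∈ (D.erase f).erase e,
            ((if s y = x then Function.update a f (σ * a e) y else 0) -
              (if t y = x then Function.update a f (σ * a e) y else 0)) := by
          refine Finset.sum_congr rfl fun g hg => ?_
          rw [ht'g g (Finset.ne_of_mem_erase hg),
            Function.update_of_ne (Finset.ne_of_mem_erase (Finset.mem_of_mem_erase hg))]
        rw [h2] at h1
        rw [Function.update_self, Function.update_of_ne hfe.symm, ← hv]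
        generalize ∑ y ∈ (D.erase f).erase e,
            ((if s y = x then Function.update a f (σ * a e) y else 0) -
              (if t y = x then Function.update a f (σ * a e) y else 0)) = R at h1 ⊢
        rcases hf2 with ⟨e1, e2, e3⟩ | ⟨e1, e2, e3⟩
        · rw [e1, e2, e3]
          split_ifs at h1 ⊢ <;> linarith
        · rw [e1, e2, e3]
          split_ifs at h1 ⊢ <;> linarith

omit [Fintype V] [Fintype E] in
/-- The support of a character of a flow is even. -/
theorem even_supp (s t : E → V) (S : Finset E) (χ : F →+ ZMod 2) (φ : E → F)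
    (hc : ∀ v, ∑ e ∈ S, ((if s e = v then φ e else 0) + (if t e = v then φ e else 0)) = 0) :
    ∀ v, Even (deg s t (S.filter fun e => χ (φ e) ≠ 0) v) := by
  intro v
  have h1 := congrArg χ (hc v)
  rw [map_sum, map_zero] at h1
  rw [← ZMod.natCast_eq_zero_iff_even]
  unfold deg
  rw [Finset.sum_filter, Nat.cast_sum]
  refine Eq.trans (Finset.sum_congr rfl fun e _ => ?_) h1
  have h2 : ∀ y : ZMod 2, y ≠ 0 → y = 1 := by decide
  rw [map_add]
  by_cases h : χ (φ e) = 0
  · rw [if_neg (not_not.2 h)]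
    split_ifs <;> simp [h]
  · rw [if_pos h]
    have h3 := h2 _ h
    split_ifs <;> simp [h3] <;> rfl

omit [Fintype V] [Fintype E] in
/-- A signing of the support which is a flow. -/
theorem flow_supp (s t : E → V) (S : Finset E) (χ : F →+ ZMod 2) (φ : E → F)
    (hc : ∀ v, ∑ e ∈ S, ((if s e = v then φ e else 0) + (if t e = v then φ e else 0)) = 0) :
    ∃ a : E → ℤ, (∀ e ∈ S, χ (φ e) ≠ 0 → a e = 1 ∨ a e = -1) ∧
      (∀ e ∈ S, χ (φ e) = 0 → a e = 0) ∧ ∀ v, dv s t S a v = 0 := by
  obtain ⟨a, h1, h2, h3⟩ := orient _ s t (S.filter fun e => χ (φ e) ≠ 0) rfl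
    (even_supp s t S χ φ hc)
  refine ⟨a, fun e he h => h1 e (Finset.mem_filter.2 ⟨he, h⟩),
    fun e _ h => h2 e (fun h4 => (Finset.mem_filter.1 h4).2 h), fun v => ?_⟩
  have h4 := h3 v
  unfold dv at h4 ⊢
  rw [Finset.sum_filter] at h4
  refine Eq.trans (Finset.sum_congr rfl fun e he => ?_) h4
  by_cases h : χ (φ e) = 0
  · rw [if_neg (not_not.2 h)]
    have h5 : a e = 0 := h2 e (fun h4 => (Finset.mem_filter.1 h4).2 h)
    simp [h5]
  · rw [if_pos h]

omit [Fintype V] [Fintype E] [DecidableEq E] in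
theorem dv_comb (s t : E → V) (S : Finset E) (f a b c : E → ℤ) (x y z : ℤ)
    (h : ∀ e ∈ S, 2 * f e = x * a e + y * b e + z * c e) (v : V)
    (ha : dv s t S a v = 0) (hb : dv s t S b v = 0) (hc : dv s t S c v = 0) :
    dv s t S f v = 0 := by
  have h1 : 2 * dv s t S f v = x * dv s t S a v + y * dv s t S b v + z * dv s t S c v := by
    unfold dv
    rw [Finset.mul_sum, Finset.mul_sum, Finset.mul_sum, Finset.mul_sum,
      ← Finset.sum_add_distrib, ← Finset.sum_add_distrib]
    refine Finset.sum_congr rfl fun e he => ?_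
    have h2 := h e he
    split_ifs <;> linarith
  rw [ha, hb, hc] at h1
  omega

/-- the five values on an edge -/
def G (x y z : ℤ) : Fin 5 → ℤ :=
  ![(x + y + z) / 2, (x - y - z) / 2, (-x + y - z) / 2, (-x - y + z) / 2, 0]

theorem G_ok (x y z : ℤ)
    (h : ((x = 1 ∨ x = -1) ∧ (y = 1 ∨ y = -1) ∧ z = 0) ∨
      ((x = 1 ∨ x = -1) ∧ y = 0 ∧ (z = 1 ∨ z = -1)) ∨
      (x = 0 ∧ (y = 1 ∨ y = -1) ∧ (z = 1 ∨ z = -1))) :
    ∃ i j, i ≠ j ∧ G x y z i = 1 ∧ G x y z j = -1 ∧ ∀ k, k ≠ i → k ≠ j → G x y z k = 0 := by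
  rcases h with ⟨rfl | rfl, rfl | rfl, rfl⟩ | ⟨rfl | rfl, rfl, rfl | rfl⟩ | ⟨rfl, rfl | rfl, rfl | rfl⟩ <;>
    decide

theorem even_of (x y z : ℤ)
    (h : ((x = 1 ∨ x = -1) ∧ (y = 1 ∨ y = -1) ∧ z = 0) ∨
      ((x = 1 ∨ x = -1) ∧ y = 0 ∧ (z = 1 ∨ z = -1)) ∨
      (x = 0 ∧ (y = 1 ∨ y = -1) ∧ (z = 1 ∨ z = -1))) :
    2 * ((x + y + z) / 2) = 1 * x + 1 * y + 1 * z ∧
    2 * ((x - y - z) / 2) = 1 * x + -1 * y + -1 * z ∧
    2 * ((-x + y - z) / 2) = -1 * x + 1 * y + -1 * z ∧
    2 * ((-x - y + z) / 2) = -1 * x + -1 * y + 1 * z := by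
  rcases h with ⟨rfl | rfl, rfl | rfl, rfl⟩ | ⟨rfl | rfl, rfl, rfl | rfl⟩ | ⟨rfl, rfl | rfl, rfl | rfl⟩ <;>
    decide

end ODnz

theorem od_nz (s t : E → V) (S : Finset E) (h : NZ s t S) : OD s t S := by
  obtain ⟨φ, hφ, hc⟩ := h
  obtain ⟨a, a1, a2, a3⟩ := ODnz.flow_supp s t S (AddMonoidHom.fst _ _) φ hc
  obtain ⟨b, b1, b2, b3⟩ := ODnz.flow_supp s t S (AddMonoidHom.snd _ _) φ hc
  obtain ⟨c, c1, c2, c3⟩ := ODnz.flow_supp s t S
    (AddMonoidHom.fst (ZMod 2) (ZMod 2) + AddMonoidHom.snd (ZMod 2) (ZMod 2)) φ hc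
  have key : ∀ e ∈ S, ((a e = 1 ∨ a e = -1) ∧ (b e = 1 ∨ b e = -1) ∧ c e = 0) ∨
      ((a e = 1 ∨ a e = -1) ∧ b e = 0 ∧ (c e = 1 ∨ c e = -1)) ∨
      (a e = 0 ∧ (b e = 1 ∨ b e = -1) ∧ (c e = 1 ∨ c e = -1)) := by
    intro e he
    have hz := hφ e he
    have ha1 := a1 e he
    have ha2 := a2 e he
    have hb1 := b1 e he
    have hb2 := b2 e he
    have hc1 := c1 e he
    have hc2 := c2 e he
    simp only [AddMonoidHom.coe_fst, AddMonoidHom.coe_snd, AddMonoidHom.add_apply] at ha1 ha2 hb1 hb2 hc1 hc2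
    have hd : ∀ g : F, g ≠ 0 → (g.1 ≠ 0 ∧ g.2 ≠ 0 ∧ g.1 + g.2 = 0) ∨
        (g.1 ≠ 0 ∧ g.2 = 0 ∧ g.1 + g.2 ≠ 0) ∨ (g.1 = 0 ∧ g.2 ≠ 0 ∧ g.1 + g.2 ≠ 0) := by
      decide
    rcases hd (φ e) hz with ⟨p1, p2, p3⟩ | ⟨p1, p2, p3⟩ | ⟨p1, p2, p3⟩
    · exact Or.inl ⟨ha1 p1, hb1 p2, hc2 p3⟩
    · exact Or.inr (Or.inl ⟨ha1 p1, hb2 p2, hc1 p3⟩)
    · exact Or.inr (Or.inr ⟨ha2 p1, hb1 p2, hc1 p3⟩)
  refine ⟨fun i e => ODnz.G (a e) (b e) (c e) i, fun i v => ?_, fun e he => ?_⟩
  · have hz : ∀ v, dv s t S (fun _ => (0 : ℤ)) v = 0 := by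
      intro v
      simp [dv]
    fin_cases i
    · exact ODnz.dv_comb s t S _ a b c 1 1 1 (fun e he => (ODnz.even_of _ _ _ (key e he)).1) v
        (a3 v) (b3 v) (c3 v)
    · exact ODnz.dv_comb s t S _ a b c 1 (-1) (-1)
        (fun e he => (ODnz.even_of _ _ _ (key e he)).2.1) v (a3 v) (b3 v) (c3 v)
    · exact ODnz.dv_comb s t S _ a b c (-1) 1 (-1)
        (fun e he => (ODnz.even_of _ _ _ (key e he)).2.2.1) v (a3 v) (b3 v) (c3 v)
    · exact ODnz.dv_comb s t S _ a b c (-1) (-1) 1
        (fun e he => (ODnz.even_of _ _ _ (key e he)).2.2.2) v (a3 v) (b3 v) (c3 v)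
    · exact hz v
  · exact ODnz.G_ok _ _ _ (key e he)

end Pool.Agent.TH362.FO
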