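import Pool.Agent.TH362.FO.PSum

/-!
The orientable five cycle double cover of the Petersen graph, lifted to Petersen quotients all of
whose edges join different classes.
-/

set_option autoImplicit false

namespace Pool.Agent.TH362.FO

open Finset Pool.Agent.TH362.TF

variable {V E : Type} [Fintype V] [DecidableEq V] [Fintype E] [DecidableEq E]

namespace ODpet

/-- The successor of `k` on the cycle `i`, and `k` itself if `k` is not on it. -/
def nx (i : Fin 5) (k : Fin 10) : Fin 10 :=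
  match i, k with
  | 0, 0 => 1 | 0, 1 => 2 | 0, 2 => 3 | 0, 3 => 8 | 0, 8 => 5 | 0, 5 => 0
  | 1, 0 => 4 | 1, 4 => 9 | 1, 9 => 6 | 1, 6 => 1 | 1, 1 => 0
  | 2, 0 => 5 | 2, 5 => 7 | 2, 7 => 2 | 2, 2 => 1 | 2, 1 => 6 | 2, 6 => 8 | 2, 8 => 3 | 2, 3 => 4
  | 2, 4 => 0
  | 3, 2 => 7 | 3, 7 => 9 | 3, 9 => 4 | 3, 4 => 3 | 3, 3 => 2
  | 4, 5 => 8 | 4, 8 => 6 | 4, 6 => 9 | 4, 9 => 7 | 4, 7 => 5
  | _, k => k

/-- The flow along the cycle `i`. -/
def w (i : Fin 5) (k l : Fin 10) : ℤ :=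
  (if nx i k = l then 1 else 0) - (if nx i l = k then 1 else 0)

theorem w_symm (i : Fin 5) (k l : Fin 10) : w i l k = -w i k l := by
  unfold w
  ring

theorem w_sum : ∀ (i : Fin 5) (k : Fin 10), ∑ j, w i k (nb k j) = 0 := by decide

theorem w_edge : ∀ (k : Fin 10) (j : Fin 3), ∃ a b : Fin 5, a ≠ b ∧ w a k (nb k j) = 1 ∧
    w b k (nb k j) = -1 ∧ ∀ c, c ≠ a → c ≠ b → w c k (nb k j) = 0 := by decide

theorem w_adj (k l : Fin 10) (h : padj k l = true) : ∃ a b : Fin 5, a ≠ b ∧ w a k l = 1 ∧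
    w b k l = -1 ∧ ∀ c, c ≠ a → c ≠ b → w c k l = 0 := by
  have h1 : ∃ j, nb k j = l := by
    unfold padj at h
    simp only [Bool.or_eq_true, beq_iff_eq] at h
    rcases h with h | h | h
    · exact ⟨0, h⟩
    · exact ⟨1, h⟩
    · exact ⟨2, h⟩
  obtain ⟨j, rfl⟩ := h1
  exact w_edge k j

end ODpet

open ODpet in
theorem od_pet (s t : E → V) (S : Finset E) (κ : V → Fin 10) (h1 : N1 s t S)
    (h : IsPQ s t S κ) (hin : ∀ e ∈ S, κ (s e) ≠ κ (t e)) : OD s t S := by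
  refine ⟨fun i e => w i (κ (s e)) (κ (t e)), ?_, ?_⟩
  · intro i v
    have h2 := pet_sum (w i) s t S κ h1 h hin v
    rw [w_sum, ite_self] at h2
    rw [← h2]
    unfold dv
    refine Finset.sum_congr rfl fun e _ => ?_
    rw [w_symm i (κ (s e)) (κ (t e)), sub_eq_add_neg]
    congr 1
    split_ifs <;> simp
  · intro e he
    exact w_adj _ _ (pet_adj s t S κ h hin e he)

end Pool.Agent.TH362.FO
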