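import Pool.Agent.TH362.FO.Defs
import Mathlib.Algebra.BigOperators.Fin
set_option autoImplicit false
namespace Pool.Agent.TH362.FO
open Finset Pool.Agent.TH362.TF
variable {V E : Type} [Fintype V] [DecidableEq V] [Fintype E] [DecidableEq E]
set_option linter.unusedSectionVars false

namespace PSum

theorem nb_inj : ∀ k : Fin 10, ∀ i j : Fin 3, nb k i = nb k j → i = j := by decide

theorem nb_ne : ∀ k : Fin 10, ∀ j : Fin 3, nb k j ≠ k := by decide

theorem padj_nb : ∀ k : Fin 10, ∀ j : Fin 3, padj k (nb k j) = true := by decide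

/-- the star of the class `k` -/
theorem star (s t : E → V) (S : Finset E) (κ : V → Fin 10) (h : IsPQ s t S κ)
    (hin : ∀ e ∈ S, κ (s e) ≠ κ (t e)) (k : Fin 10) :
    ∃ c : Fin 3 → E, Function.Injective c ∧ (∀ j, c j ∈ S) ∧
      (∀ j, Joins κ s t k (nb k j) (c j)) ∧
      ∀ e ∈ S, (κ (s e) = k ∨ κ (t e) = k) → ∃ j, e = c j := by
  choose c hc using fun j : Fin 3 => h.2 k (nb k j) (padj_nb k j)
  have hinj : Function.Injective c := by
    intro i j hij
    have h1 := (hc i).2
    have h2 := (hc j).2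
    rw [hij] at h1
    apply nb_inj k
    rcases h1 with ⟨a, b⟩ | ⟨a, b⟩ <;> rcases h2 with ⟨a', b'⟩ | ⟨a', b'⟩
    · exact b.symm.trans b'
    · exact absurd (a'.symm.trans a) (nb_ne k j)
    · exact absurd (b'.symm.trans b) (nb_ne k j)
    · exact a.symm.trans a'
  have hmem : ∀ j, c j ∈ cut s t S (fun v => decide (κ v = k)) := by
    intro j
    unfold cut
    rw [mem_filter]
    refine ⟨(hc j).1, ?_⟩
    rcases (hc j).2 with ⟨a, b⟩ | ⟨a, b⟩
    · simp [a, b, nb_ne k j]
    · simp [a, b, nb_ne k j]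
  have himg : univ.image c = cut s t S (fun v => decide (κ v = k)) := by
    apply eq_of_subset_of_card_le
    · intro e he
      obtain ⟨j, -, rfl⟩ := mem_image.1 he
      exact hmem j
    · rw [h.1 k, card_image_of_injective _ hinj]
      simp
  refine ⟨c, hinj, fun j => (hc j).1, fun j => (hc j).2, ?_⟩
  intro e he hk
  have hcut : e ∈ cut s t S (fun v => decide (κ v = k)) := by
    unfold cut
    rw [mem_filter]
    refine ⟨he, ?_⟩
    have hne := hin e he
    rcases hk with hk | hk
    · have h' : κ (t e) ≠ k := fun h'' => hne (hk.trans h''.symm)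
      simp [hk, h']
    · have h' : κ (s e) ≠ k := fun h'' => hne (h''.trans hk.symm)
      simp [hk, h']
  rw [← himg] at hcut
  obtain ⟨j, -, hj⟩ := mem_image.1 hcut
  exact ⟨j, hj.symm⟩

/-- the sum at a vertex of the class `k` -/
theorem formula {A : Type} [AddCommMonoid A] (g : Fin 10 → Fin 10 → A) (s t : E → V)
    (S : Finset E) (κ : V → Fin 10) (k : Fin 10) (c : Fin 3 → E) (hc : Function.Injective c)
    (hcS : ∀ j, c j ∈ S) (hj : ∀ j, Joins κ s t k (nb k j) (c j))
    (hall : ∀ e ∈ S, (κ (s e) = k ∨ κ (t e) = k) → ∃ j, e = c j) (u : V) (hu : κ u = k) :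
    ∑ e ∈ S, ((if s e = u then g (κ (s e)) (κ (t e)) else 0) +
      (if t e = u then g (κ (t e)) (κ (s e)) else 0)) =
    ∑ j : Fin 3, (if (if κ (s (c j)) = k then s (c j) else t (c j)) = u then g k (nb k j) else 0) := by
  have h1 : ∀ j : Fin 3, (if (if κ (s (c j)) = k then s (c j) else t (c j)) = u
      then g k (nb k j) else 0) = ((if s (c j) = u then g (κ (s (c j))) (κ (t (c j))) else 0) +
      (if t (c j) = u then g (κ (t (c j))) (κ (s (c j))) else 0)) := by
    intro j
    rcases hj j with ⟨a, b⟩ | ⟨a, b⟩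
    · have h2 : t (c j) ≠ u := fun h3 => nb_ne k j (by rw [← b, h3, hu])
      simp [a, b, h2]
    · have h2 : s (c j) ≠ u := fun h3 => nb_ne k j (by rw [← a, h3, hu])
      simp [a, b, h2, nb_ne k j]
  rw [Finset.sum_congr rfl (fun j _ => h1 j)]
  rw [← Finset.sum_image (s := univ) (g := c)
    (f := fun e => ((if s e = u then g (κ (s e)) (κ (t e)) else 0) +
      (if t e = u then g (κ (t e)) (κ (s e)) else 0))) (fun a _ b _ hab => hc hab)]
  symm
  apply Finset.sum_subset
  · intro e he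
    obtain ⟨j, -, rfl⟩ := mem_image.1 he
    exact hcS j
  · intro e he hn
    have h3 : s e ≠ u := by
      intro h4
      obtain ⟨j, rfl⟩ := hall e he (Or.inl (by rw [h4, hu]))
      exact hn (mem_image_of_mem _ (mem_univ j))
    have h5 : t e ≠ u := by
      intro h4
      obtain ⟨j, rfl⟩ := hall e he (Or.inr (by rw [h4, hu]))
      exact hn (mem_image_of_mem _ (mem_univ j))
    simp [h3, h5]

/-- no vertex has degree one -/
theorem deg_ne_one (s t : E → V) (S : Finset E) (h1 : N1 s t S) (hl : ∀ e ∈ S, s e ≠ t e)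
    (u : V) : deg s t S u ≠ 1 := by
  have h2 := h1 (fun v => decide (v = u))
  have h3 : (cut s t S (fun v => decide (v = u))).card = deg s t S u := by
    unfold cut deg
    rw [card_filter]
    apply Finset.sum_congr rfl
    intro e he
    have h4 := hl e he
    by_cases h5 : s e = u
    · have h6 : t e ≠ u := fun h7 => h4 (h5.trans h7.symm)
      simp [h5, h6]
    · by_cases h6 : t e = u
      · simp [h5, h6]
      · simp [h5, h6]
  rwa [h3] at h2

theorem three (w : Fin 3 → V) (h : ∀ i, ∑ j : Fin 3, (if w j = w i then 1 else 0) ≠ 1) :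
    w 1 = w 0 ∧ w 2 = w 0 := by
  have h0 := h 0
  have h1 := h 1
  have h2 := h 2
  simp only [Fin.sum_univ_three] at h0 h1 h2
  by_cases a : w 1 = w 0
  · by_cases b : w 2 = w 0
    · exact ⟨a, b⟩
    · exfalso
      apply h2
      have b' : w 0 ≠ w 2 := fun hb => b hb.symm
      have b'' : w 1 ≠ w 2 := fun hb => b (hb.symm.trans a)
      simp [b', b'']
  · exfalso
    by_cases b : w 2 = w 0
    · apply h1
      have a' : w 0 ≠ w 1 := fun ha => a ha.symm
      have a'' : w 2 ≠ w 1 := fun ha => a (ha.symm.trans b)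
      simp [a', a'']
    · apply h0
      simp [a, b]

end PSum

open Pool.Agent.TH362.FO.PSum

theorem pet_sum {A : Type} [AddCommMonoid A] (g : Fin 10 → Fin 10 → A) (s t : E → V)
    (S : Finset E) (κ : V → Fin 10) (h1 : N1 s t S) (h : IsPQ s t S κ)
    (hin : ∀ e ∈ S, κ (s e) ≠ κ (t e)) (v : V) :
    ∑ e ∈ S, ((if s e = v then g (κ (s e)) (κ (t e)) else 0) +
      (if t e = v then g (κ (t e)) (κ (s e)) else 0)) =
      if deg s t S v = 0 then 0 else ∑ j, g (κ v) (nb (κ v) j) := by
  obtain ⟨c, hc, hcS, hj, hall⟩ := star s t S κ h hin (κ v)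
  rw [formula g s t S κ (κ v) c hc hcS hj hall v rfl]
  have hdeg : ∀ u, κ u = κ v → deg s t S u =
      ∑ j : Fin 3, (if (if κ (s (c j)) = κ v then s (c j) else t (c j)) = u then 1 else 0) := by
    intro u hu
    exact formula (fun _ _ => (1 : ℕ)) s t S κ (κ v) c hc hcS hj hall u hu
  have hw : ∀ j, κ (if κ (s (c j)) = κ v then s (c j) else t (c j)) = κ v := by
    intro j
    rcases hj j with ⟨a, b⟩ | ⟨a, b⟩
    · simp [a]
    · simp [a, b, nb_ne (κ v) j]
  have hl : ∀ e ∈ S, s e ≠ t e := fun e he h2 => hin e he (by rw [h2])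
  obtain ⟨e1, e2⟩ := three (fun j => if κ (s (c j)) = κ v then s (c j) else t (c j)) (by
    intro i
    have h3 := deg_ne_one s t S h1 hl (if κ (s (c i)) = κ v then s (c i) else t (c i))
    rwa [hdeg _ (hw i)] at h3)
  rw [hdeg v rfl]
  simp only [Fin.sum_univ_three]
  rw [e1, e2]
  by_cases hv : (if κ (s (c 0)) = κ v then s (c 0) else t (c 0)) = v
  · simp [hv]
  · simp [hv]

theorem pet_adj (s t : E → V) (S : Finset E) (κ : V → Fin 10) (h : IsPQ s t S κ)
    (hin : ∀ e ∈ S, κ (s e) ≠ κ (t e)) : ∀ e ∈ S, padj (κ (s e)) (κ (t e)) = true := by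
  intro e he
  obtain ⟨c, hc, hcS, hj, hall⟩ := star s t S κ h hin (κ (s e))
  obtain ⟨j, hej⟩ := hall e he (Or.inl rfl)
  have h2 := hj j
  rw [← hej] at h2
  rcases h2 with ⟨_, b⟩ | ⟨a, _⟩
  · rw [b]; exact padj_nb _ j
  · exact absurd a.symm (nb_ne _ j)

end Pool.Agent.TH362.FO
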